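import Mathlib

/-!
# Algebra for the quantitative theorem
-/

set_option autoImplicit false

namespace Pool.Agent.Helper78.QS.Alg

open Polynomial

section K
variable {κ : Type*} [Field κ]

/-- the derivation `∂/∂X + Y ∂/∂Y` on `κ[X][Y]` -/
noncomputable def dd (P : κ[X][X]) : κ[X][X] :=
  P.sum fun j a => monomial j (derivative a + (j : κ[X]) * a)

theorem coeff_dd (P : κ[X][X]) (j : ℕ) :
    (dd P).coeff j = derivative (P.coeff j) + (j : κ[X]) * P.coeff j := by
  unfold dd
  rw [Polynomial.sum_def, finsetSum_coeff]
  simp only [coeff_monomial]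
  rw [Finset.sum_ite_eq' P.support j]
  split_ifs with h
  · rfl
  · rw [notMem_support_iff.1 h]
    simp

theorem dd_add (P Q : κ[X][X]) : dd (P + Q) = dd P + dd Q := by
  ext1 j
  simp only [coeff_dd, coeff_add, map_add]
  ring

theorem dd_mul_C (P : κ[X][X]) (a : κ[X]) : dd (P * C a) = dd P * C a + P * C (derivative a) := by
  ext1 j
  simp only [coeff_dd, coeff_add, coeff_mul_C, derivative_mul]
  ring

theorem dd_mul_X (P : κ[X][X]) : dd (P * X) = dd P * X + P * X := by
  ext1 j
  rcases j with _ | j
  · simp [coeff_dd]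
  · simp only [coeff_dd, coeff_add, coeff_mul_X]
    push_cast
    ring

theorem dd_sub_smul (P : κ[X][X]) (r : ℕ) : dd (dd P - (r : κ[X][X]) * P) = dd (dd P) - (r : κ[X][X]) * dd P := by
  ext1 j
  have h : ∀ (Q : κ[X][X]) j, ((r : κ[X][X]) * Q).coeff j = (r : κ[X]) * Q.coeff j := by
    intro Q j
    have : (r : κ[X][X]) = C (r : κ[X]) := by simp
    rw [this, coeff_C_mul]
  simp only [coeff_dd, coeff_sub, h, derivative_sub, derivative_mul, derivative_natCast]
  ring

theorem iter_dd_sub (P : κ[X][X]) (r : ℕ) (t : ℕ) :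
    dd^[t] (dd P - (r : κ[X][X]) * P) = dd^[t + 1] P - (r : κ[X][X]) * dd^[t] P := by
  induction t generalizing P with
  | zero => rfl
  | succ t ih =>
    rw [Function.iterate_succ_apply, dd_sub_smul, ih]
    rfl

theorem coeff_sub_nat (P : κ[X][X]) (r j : ℕ) :
    (dd P - (r : κ[X][X]) * P).coeff j =
      derivative (P.coeff j) + ((j : κ[X]) - (r : κ[X])) * P.coeff j := by
  have : (r : κ[X][X]) = C (r : κ[X]) := by simp
  rw [this, coeff_sub, coeff_C_mul, coeff_dd]
  ring

/-- the key lemma -/
theorem key [CharZero κ] (x e : κ) (he : e ≠ 0) (P : κ[X][X])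
    (hP : ∀ t, evalEval x e (dd^[t] P) = 0) : P = 0 := by
  classical
  by_contra hne
  -- minimal degree
  have hex : ∃ r : ℕ, ∃ Q : κ[X][X], Q ≠ 0 ∧ (∀ t, evalEval x e (dd^[t] Q) = 0) ∧ Q.natDegree = r :=
    ⟨_, P, hne, hP, rfl⟩
  set r := Nat.find hex with hr
  have hmin1 := fun m (h : m < r) => Nat.find_min hex h
  have hex2 : ∃ s : ℕ, ∃ Q : κ[X][X], Q ≠ 0 ∧ (∀ t, evalEval x e (dd^[t] Q) = 0) ∧ Q.natDegree = r ∧
      (Q.coeff r).natDegree = s := by
    obtain ⟨Q, h1, h2, h3⟩ := Nat.find_spec hex
    exact ⟨_, Q, h1, h2, h3, rfl⟩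
  obtain ⟨Q, h1, h2, h3, h4⟩ := Nat.find_spec hex2
  have hmin2 := fun m (h : m < Nat.find hex2) => Nat.find_min hex2 h
  set T : κ[X][X] := dd Q - (r : κ[X][X]) * Q with hT
  have hTv : ∀ t, evalEval x e (dd^[t] T) = 0 := by
    intro t
    rw [hT, iter_dd_sub, evalEval_sub, evalEval_mul, h2, h2, mul_zero, sub_zero]
  have hTd : T.natDegree ≤ r := by
    rw [natDegree_le_iff_coeff_eq_zero]
    intro N hN
    rw [hT, coeff_sub_nat, coeff_eq_zero_of_natDegree_lt (by omega)]
    simp
  have hTr : T.coeff r = derivative (Q.coeff r) := by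
    rw [hT, coeff_sub_nat]
    simp
  have hQr : Q.coeff r ≠ 0 := by
    rw [← h3]
    exact leadingCoeff_ne_zero.2 h1
  have hT0 : T = 0 := by
    by_contra hT1
    rcases Nat.lt_or_ge T.natDegree r with h | h
    · exact hmin1 _ h ⟨T, hT1, hTv, rfl⟩
    · have h5 : T.natDegree = r := le_antisymm hTd h
      have h6 : T.coeff r ≠ 0 := by
        rw [← h5]
        exact leadingCoeff_ne_zero.2 hT1
      have h7 : (T.coeff r).natDegree < (Q.coeff r).natDegree := by
        rw [hTr]
        apply natDegree_derivative_lt
        intro h8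
        rw [hTr, derivative_of_natDegree_zero h8] at h6
        exact h6 rfl
      rw [h4] at h7
      exact hmin2 _ h7 ⟨T, hT1, hTv, h5, rfl⟩
  have hc : ∀ j, derivative (Q.coeff j) + ((j : κ[X]) - (r : κ[X])) * Q.coeff j = 0 := by
    intro j
    rw [← coeff_sub_nat, ← hT, hT0, coeff_zero]
  have hlow : ∀ j, j ≠ r → Q.coeff j = 0 := by
    intro j hj
    by_contra hne2
    have e1 : derivative (Q.coeff j) = C ((r : κ) - (j : κ)) * Q.coeff j := by
      have := hc j
      simp only [map_sub, map_natCast]
      linear_combination this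
    have e2 : (r : κ) - (j : κ) ≠ 0 := by
      rw [sub_ne_zero]
      exact_mod_cast (Ne.symm hj)
    have e3 := degree_derivative_lt hne2
    rw [e1, degree_C_mul e2] at e3
    exact lt_irrefl _ e3
  have htop : (Q.coeff r).natDegree = 0 := by
    have := hc r
    rw [sub_self, zero_mul, add_zero] at this
    exact derivative_eq_zero.1 this
  obtain ⟨c, hc2⟩ := natDegree_eq_zero.1 htop
  have hQ : Q = monomial r (C c) := by
    ext1 j
    rw [coeff_monomial]
    split_ifs with h
    · rw [← h, hc2]
    · exact hlow j (Ne.symm h)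
  have h8 := h2 0
  rw [Function.iterate_zero_apply, hQ, ← C_mul_X_pow_eq_monomial] at h8
  simp only [evalEval, eval_mul, eval_C, eval_pow, eval_X] at h8
  have h9 : c * e ^ r = 0 := by simpa using h8
  rcases mul_eq_zero.1 h9 with h10 | h10
  · apply hQr
    rw [← hc2, h10, map_zero]
  · exact pow_ne_zero r he h10

end K

section A
open MvPolynomial

variable {σ : Type*} [DecidableEq σ] {R : Type*} [CommRing R] {κ : Type*} [Field κ] [Algebra R κ]

/-- the derivation `∂/∂u + v ∂/∂v` -/
noncomputable def dl (u v : σ) (P : MvPolynomial σ R) : MvPolynomial σ R :=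
  pderiv u P + X v * pderiv v P

/-- specialise all variables but `u`, `v` -/
noncomputable def Th (x : σ → κ) (u v : σ) : MvPolynomial σ R →ₐ[R] κ[X][X] :=
  aeval (fun s => if s = u then Polynomial.C Polynomial.X else if s = v then Polynomial.X else
    Polynomial.C (Polynomial.C (x s)))

theorem ev_Th (x : σ → κ) (u v : σ) (P : MvPolynomial σ R) :
    evalEval (x u) (x v) (Th x u v P) = aeval x P := by
  induction P using MvPolynomial.induction_on with
  | C a =>
    rw [← MvPolynomial.algebraMap_eq, AlgHom.commutes, AlgHom.commutes]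
    simp [IsScalarTower.algebraMap_apply R κ κ[X][X]]
  | add p q hp hq => rw [map_add, map_add, evalEval_add, hp, hq]
  | mul_X p s hp =>
    rw [map_mul, map_mul, evalEval_mul, hp, MvPolynomial.aeval_X]
    congr 1
    unfold Th
    rw [MvPolynomial.aeval_X]
    split_ifs with h1 h2
    · simp [evalEval, h1]
    · simp [evalEval, h2]
    · simp [evalEval]

theorem Th_dl (x : σ → κ) {u v : σ} (huv : u ≠ v) (P : MvPolynomial σ R) :
    Th x u v (dl u v P) = dd (Th x u v P) := by
  induction P using MvPolynomial.induction_on with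
  | C a =>
    have h1 : dl u v (MvPolynomial.C a : MvPolynomial σ R) = 0 := by
      unfold dl
      rw [pderiv_C, pderiv_C, mul_zero, add_zero]
    rw [h1, map_zero, ← MvPolynomial.algebraMap_eq, AlgHom.commutes]
    have h2 : algebraMap R κ[X][X] a = Polynomial.C (Polynomial.C (algebraMap R κ a)) := rfl
    rw [h2]
    ext1 j
    rw [coeff_dd, Polynomial.coeff_C]
    split_ifs with h
    · subst h
      simp
    · simp
  | add p q hp hq =>
    have : dl u v (p + q) = dl u v p + dl u v q := by
      unfold dl
      rw [map_add, map_add]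
      ring
    rw [this, map_add, map_add, dd_add, hp, hq]
  | mul_X p s hp =>
    have : dl u v (p * X s) = dl u v p * X s + p * dl u v (X s) := by
      unfold dl
      rw [pderiv_mul, pderiv_mul]
      ring
    rw [this, map_add, map_mul, map_mul, map_mul, hp]
    by_cases h1 : s = u
    · subst h1
      have h2 : dl s v (X s : MvPolynomial σ R) = 1 := by
        unfold dl
        rw [pderiv_X_self, pderiv_X_of_ne huv, mul_zero, add_zero]
      have h3 : Th x s v (X s : MvPolynomial σ R) = Polynomial.C Polynomial.X := by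
        unfold Th
        rw [MvPolynomial.aeval_X, if_pos rfl]
      rw [h2, map_one, mul_one, h3, dd_mul_C, derivative_X, map_one, mul_one]
    · by_cases h2 : s = v
      · subst h2
        have h3 : dl u s (X s : MvPolynomial σ R) = X s := by
          unfold dl
          rw [pderiv_X_self, pderiv_X_of_ne h1, mul_one, zero_add]
        have h4 : Th x u s (X s : MvPolynomial σ R) = Polynomial.X := by
          unfold Th
          rw [MvPolynomial.aeval_X, if_neg h1, if_pos rfl]
        rw [h3, h4, dd_mul_X]
      · have h3 : dl u v (X s : MvPolynomial σ R) = 0 := by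
          unfold dl
          rw [pderiv_X_of_ne h1, pderiv_X_of_ne h2, mul_zero, add_zero]
        have h4 : Th x u v (X s : MvPolynomial σ R) = Polynomial.C (Polynomial.C (x s)) := by
          unfold Th
          rw [MvPolynomial.aeval_X, if_neg h1, if_neg h2]
        rw [h3, h4, map_zero, mul_zero, add_zero, dd_mul_C, derivative_C, map_zero, mul_zero,
          add_zero]

theorem Th_iter (x : σ → κ) {u v : σ} (huv : u ≠ v) (P : MvPolynomial σ R) (t : ℕ) :
    Th x u v ((dl u v)^[t] P) = dd^[t] (Th x u v P) := by
  induction t generalizing P with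
  | zero => rfl
  | succ t ih => rw [Function.iterate_succ_apply, ih, Th_dl x huv, Function.iterate_succ_apply]

/-- injectivity of the specialisation -/
theorem Th_inj (x : σ → κ) {u v : σ} (huv : u ≠ v) (S : Set σ) (hu : u ∉ S) (hv : v ∉ S)
    (hS : AlgebraicIndependent R (fun s : S => x s)) (P : MvPolynomial σ R)
    (hP : P ∈ supported R (insert u (insert v S))) (h0 : Th x u v P = 0) : P = 0 := by
  let f : Option (Option S) → σ := fun o => o.elim v (fun o => o.elim u (fun s => s))
  have hf0 : f none = v := rfl
  have hf1 : f (some none) = u := rfl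
  have hf2 : ∀ a : S, f (some (some a)) = a := fun _ => rfl
  have hSu : ∀ a : S, (a : σ) ≠ u := fun a h => hu (by rw [← h]; exact a.2)
  have hSv : ∀ a : S, (a : σ) ≠ v := fun a h => hv (by rw [← h]; exact a.2)
  have hf : Function.Injective f := by
    rintro (_ | _ | a) (_ | _ | b) h
    · rfl
    · exact absurd h (Ne.symm huv)
    · exact absurd h.symm (hSv b)
    · exact absurd h huv
    · rfl
    · exact absurd h.symm (hSu b)
    · exact absurd h (hSv a)
    · exact absurd h (hSu a)
    · exact congrArg (fun s => some (some s)) (Subtype.ext h)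
  obtain ⟨q, hq⟩ := exists_rename_eq_of_vars_subset_range P f hf (by
    rw [mem_supported] at hP
    refine hP.trans ?_
    rintro s (hs | hs | hs)
    · exact ⟨some none, hs.symm⟩
    · exact ⟨none, hs.symm⟩
    · exact ⟨some (some ⟨s, hs⟩), rfl⟩)
  let g : MvPolynomial (Option S) R →ₐ[R] κ[X] :=
    (Polynomial.mapAlgHom (MvPolynomial.aeval (fun s : S => x s))).comp
      (optionEquivLeft R S).toAlgHom
  have hg : Function.Injective g := by
    have h1 : Function.Injective (MvPolynomial.aeval (fun s : S => x s) : MvPolynomial S R →ₐ[R] κ) := hS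
    have h2 : Function.Injective (Polynomial.mapAlgHom
        (MvPolynomial.aeval (fun s : S => x s) : MvPolynomial S R →ₐ[R] κ)) :=
      Polynomial.map_injective _ h1
    exact h2.comp (optionEquivLeft R S).injective
  let G : MvPolynomial (Option (Option S)) R →ₐ[R] κ[X][X] :=
    (Polynomial.mapAlgHom g).comp (optionEquivLeft R (Option S)).toAlgHom
  have hG : Function.Injective G := by
    have h2 : Function.Injective (Polynomial.mapAlgHom g) :=
      Polynomial.map_injective (g : MvPolynomial (Option S) R →+* κ[X]) hg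
    exact h2.comp (optionEquivLeft R (Option S)).injective
  have hGT : G = (Th x u v).comp (rename f) := by
    apply MvPolynomial.algHom_ext
    rintro (_ | _ | a)
    · change (Polynomial.mapAlgHom g) (optionEquivLeft R (Option S) (X none)) = Th x u v (rename f (X none))
      rw [optionEquivLeft_X_none, rename_X, hf0]
      unfold Th
      rw [MvPolynomial.aeval_X, if_neg (Ne.symm huv), if_pos rfl]
      simp
    · change (Polynomial.mapAlgHom g) (optionEquivLeft R (Option S) (X (some none))) =
        Th x u v (rename f (X (some none)))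
      rw [optionEquivLeft_X_some, rename_X, hf1]
      unfold Th
      rw [MvPolynomial.aeval_X, if_pos rfl]
      change Polynomial.map _ (Polynomial.C _) = _
      rw [Polynomial.map_C]
      congr 1
      change (Polynomial.mapAlgHom _) (optionEquivLeft R S (X none)) = _
      rw [optionEquivLeft_X_none]
      simp
    · change (Polynomial.mapAlgHom g) (optionEquivLeft R (Option S) (X (some (some a)))) =
        Th x u v (rename f (X (some (some a))))
      rw [optionEquivLeft_X_some, rename_X, hf2]
      unfold Th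
      rw [MvPolynomial.aeval_X, if_neg (hSu a), if_neg (hSv a)]
      change Polynomial.map _ (Polynomial.C _) = _
      rw [Polynomial.map_C]
      congr 1
      change (Polynomial.mapAlgHom _) (optionEquivLeft R S (X (some a))) = _
      rw [optionEquivLeft_X_some]
      simp
  have h1 : G q = 0 := by
    rw [hGT]
    change Th x u v (rename f q) = 0
    rw [hq, h0]
  have h2 : q = 0 := by
    apply hG
    rw [h1, map_zero]
  rw [← hq, h2, map_zero]

omit [DecidableEq σ] in
theorem pderiv_supported (u : σ) {T : Set σ} {P : MvPolynomial σ R}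
    (hP : P ∈ supported R T) : pderiv u P ∈ supported R T := by
  classical
  unfold supported at hP ⊢
  induction hP using Algebra.adjoin_induction with
  | mem x hx =>
    obtain ⟨s, _, rfl⟩ := hx
    rw [pderiv_X]
    by_cases h : u = s
    · subst h
      rw [Pi.single_eq_same]
      exact one_mem _
    · rw [Pi.single_eq_of_ne (Ne.symm h)]
      exact zero_mem _
  | algebraMap r =>
    rw [MvPolynomial.algebraMap_eq, pderiv_C]
    exact zero_mem _
  | add x y hx hy h1 h2 =>
    rw [map_add]
    exact add_mem h1 h2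
  | mul x y hx hy h1 h2 =>
    rw [pderiv_mul]
    exact add_mem (mul_mem h1 hy) (mul_mem hx h2)

omit [DecidableEq σ] in
theorem dl_supported {u v : σ} {T : Set σ} (hv : v ∈ T) {P : MvPolynomial σ R}
    (hP : P ∈ supported R T) : dl u v P ∈ supported R T := by
  have : Nontrivial R ∨ ¬ Nontrivial R := em _
  rcases this with h | h
  · exact add_mem (pderiv_supported u hP) (mul_mem (X_mem_supported.2 hv) (pderiv_supported v hP))
  · rw [not_nontrivial_iff_subsingleton] at h
    have : Subsingleton (MvPolynomial σ R) := inferInstance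
    rw [Subsingleton.elim (dl u v P) 0]
    exact zero_mem _

omit [DecidableEq σ] in
theorem dl_iter_supported {u v : σ} {T : Set σ} (hv : v ∈ T) {P : MvPolynomial σ R}
    (hP : P ∈ supported R T) (t : ℕ) : (dl u v)^[t] P ∈ supported R T := by
  induction t with
  | zero => exact hP
  | succ t ih =>
    rw [Function.iterate_succ_apply']
    exact dl_supported hv ih

end A

section AL
open MvPolynomial
variable {n : ℕ} {R : Type*} [CommRing R] {κ : Type*} [Field κ] [CharZero κ] [Algebra R κ]

/-- the variables with index in `J` -/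
def SJ (J : Finset (Fin n)) : Set (Fin n ⊕ Fin n) := {s | Sum.elim id id s ∈ J}

theorem SJ_insert (J : Finset (Fin n)) (i : Fin n) :
    SJ (insert i J) = insert (Sum.inl i) (insert (Sum.inr i) (SJ J)) := by
  ext s
  rcases s with j | j <;> simp [SJ]

theorem ncard_SJ (J : Finset (Fin n)) : (SJ J).ncard = 2 * J.card := by
  classical
  have : SJ J = (J.disjSum J : Finset (Fin n ⊕ Fin n)) := by
    ext s
    rcases s with j | j <;> simp [SJ]
  rw [this, Set.ncard_coe_finset, Finset.card_disjSum]
  ring

theorem ind_zero {x : Fin n ⊕ Fin n → κ} {S : Set (Fin n ⊕ Fin n)}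
    (hS : AlgebraicIndependent R (fun s : S => x s)) {P : MvPolynomial (Fin n ⊕ Fin n) R}
    (hP : P ∈ supported R S) (h0 : aeval x P = 0) : P = 0 := by
  rw [supported_eq_range_rename] at hP
  obtain ⟨q, rfl⟩ := hP
  have h1 : aeval (fun s : S => x s) q = 0 := by
    rw [← h0]
    exact (aeval_rename _ _ _).symm
  have h2 : q = 0 := by
    apply hS
    rw [h1, map_zero]
  rw [h2]
  exact map_zero _

/-- **The algebraic lemma.** -/
theorem main (hinj : Function.Injective (algebraMap R κ)) (x : Fin n ⊕ Fin n → κ)
    (hx : ∀ i, x (Sum.inr i) ≠ 0) (m : ℕ)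
    (hτ : ∀ τ : Finset (Fin n ⊕ Fin n), τ.card = m → ∃ P : MvPolynomial (Fin n ⊕ Fin n) R, P ≠ 0 ∧
      P ∈ supported R (τ : Set (Fin n ⊕ Fin n)) ∧ aeval x P = 0) :
    ∃ J : Finset (Fin n), 2 * J.card < m ∧ ∀ i ∉ J, ∃ G : MvPolynomial (Fin n ⊕ Fin n) R,
      G ∈ supported R (SJ (insert i J)) ∧ aeval x G = 0 ∧
      aeval x (dl (Sum.inl i) (Sum.inr i) G) ≠ 0 := by
  classical
  let Ind : Finset (Fin n) → Prop := fun J => AlgebraicIndependent R (fun s : SJ J => x s)
  have h0 : Ind ∅ := by
    have : IsEmpty (SJ (∅ : Finset (Fin n))) := ⟨fun s => by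
      have := s.2
      simp [SJ] at this⟩
    exact algebraicIndependent_empty_type_iff.2 hinj
  obtain ⟨J, hJ, hmax⟩ := Finset.exists_max_image (Finset.univ.filter Ind) Finset.card
    ⟨∅, Finset.mem_filter.2 ⟨Finset.mem_univ _, h0⟩⟩
  have hJI : Ind J := (Finset.mem_filter.1 hJ).2
  refine ⟨J, ?_, ?_⟩
  · by_contra hcon
    have h1 : m ≤ (J.disjSum J : Finset (Fin n ⊕ Fin n)).card := by
      rw [Finset.card_disjSum]
      omega
    obtain ⟨τ, hτJ, hτm⟩ := Finset.exists_subset_card_eq h1
    obtain ⟨P, hP0, hPs, hPx⟩ := hτ τ hτm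
    apply hP0
    refine ind_zero hJI (supported_mono ?_ hPs) hPx
    intro s hs
    have := hτJ (Finset.mem_coe.1 hs)
    rcases s with j | j <;> simpa [SJ] using this
  · intro i hi
    have h1 : ¬ Ind (insert i J) := by
      intro h
      have := hmax _ (Finset.mem_filter.2 ⟨Finset.mem_univ _, h⟩)
      rw [Finset.card_insert_of_notMem hi] at this
      omega
    have h2 : ∃ P : MvPolynomial (Fin n ⊕ Fin n) R, P ≠ 0 ∧ P ∈ supported R (SJ (insert i J)) ∧
        aeval x P = 0 := by
      by_contra hcon
      push Not at hcon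
      apply h1
      change Function.Injective _
      rw [injective_iff_map_eq_zero]
      intro q hq
      by_contra hq0
      refine hcon (rename Subtype.val q) ?_ ?_ ?_
      · intro h
        exact hq0 (rename_injective _ Subtype.val_injective (by rw [h, map_zero]))
      · rw [supported_eq_range_rename]
        exact ⟨q, rfl⟩
      · rw [aeval_rename]
        exact hq
    obtain ⟨P, hP0, hPs, hPx⟩ := h2
    have huv : (Sum.inl i : Fin n ⊕ Fin n) ≠ Sum.inr i := by simp
    have hu : (Sum.inl i : Fin n ⊕ Fin n) ∉ SJ J := hi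
    have hv : (Sum.inr i : Fin n ⊕ Fin n) ∉ SJ J := hi
    have hex : ∃ t, aeval x ((dl (Sum.inl i) (Sum.inr i))^[t] P) ≠ 0 := by
      by_contra hcon
      push Not at hcon
      apply hP0
      rw [SJ_insert] at hPs
      refine Th_inj x huv (SJ J) hu hv hJI P hPs ?_
      apply key (x (Sum.inl i)) (x (Sum.inr i)) (hx i)
      intro t
      rw [← Th_iter x huv, ev_Th]
      exact hcon t
    have hmem : (Sum.inr i : Fin n ⊕ Fin n) ∈ SJ (insert i J) := by
      simp [SJ]
    have hne := Nat.find_spec hex
    obtain ⟨t, ht⟩ : ∃ t, Nat.find hex = t + 1 := by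
      apply Nat.exists_eq_succ_of_ne_zero
      intro h
      rw [h] at hne
      exact hne hPx
    have hlt := Nat.find_min hex (m := t) (by omega)
    rw [ht, Function.iterate_succ_apply'] at hne
    exact ⟨_, dl_iter_supported hmem hPs t, not_not.1 hlt, hne⟩

end AL

end Pool.Agent.Helper78.QS.Alg
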