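import Mathlib
import Pool.Agent.Helper78.QS.Alg
import Pool.Agent.Helper78.SC.Cov

/-!
# A field of sequences modulo very small ones
-/

set_option autoImplicit false

namespace Pool.Agent.Helper78.QS.Ultra

open Filter MvPolynomial

section Ring

variable (U : Ultrafilter ℕ) (H b : ℕ → ℕ)

/-- sequences of moderate growth -/
def Bd (f : ℕ → ℂ) : Prop := ∃ a : ℕ, ∀ᶠ k in (U : Filter ℕ), ‖f k‖ ≤ (H k : ℝ) ^ (b k ^ a)

/-- very small sequences -/
def Sm (f : ℕ → ℂ) : Prop := ∀ a : ℕ, ∀ᶠ k in (U : Filter ℕ), ‖f k‖ * (H k : ℝ) ^ (b k ^ a) ≤ 1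

variable {U H b}

theorem exp_add {b : ℕ} (hb : 2 ≤ b) (a a' : ℕ) : b ^ a + b ^ a' ≤ b ^ (max a a' + 1) := by
  have h1 : b ^ a ≤ b ^ max a a' := Nat.pow_le_pow_right (by omega) (le_max_left _ _)
  have h2 : b ^ a' ≤ b ^ max a a' := Nat.pow_le_pow_right (by omega) (le_max_right _ _)
  calc b ^ a + b ^ a' ≤ b ^ max a a' + b ^ max a a' := by omega
    _ = b ^ max a a' * 2 := by ring
    _ ≤ b ^ max a a' * b := Nat.mul_le_mul_left _ hb
    _ = _ := (pow_succ _ _).symm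

theorem Bd.add (hH : ∀ k, 2 ≤ H k) (hb : ∀ k, 2 ≤ b k) {f g : ℕ → ℂ} (hf : Bd U H b f)
    (hg : Bd U H b g) : Bd U H b (f + g) := by
  obtain ⟨a, ha⟩ := hf
  obtain ⟨a', ha'⟩ := hg
  refine ⟨max a a' + 1, ?_⟩
  filter_upwards [ha, ha'] with k h1 h2
  have h3 : (1 : ℝ) ≤ H k := by exact_mod_cast (by have := hH k; omega : 1 ≤ H k)
  have h3' : (2 : ℝ) ≤ H k := by exact_mod_cast hH k
  have h4 : b k ^ max a a' + 1 ≤ b k ^ (max a a' + 1) := by
    have h5 : 1 ≤ b k ^ max a a' := Nat.one_le_pow _ _ (by have := hb k; omega)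
    calc b k ^ max a a' + 1 ≤ b k ^ max a a' * 2 := by omega
      _ ≤ b k ^ max a a' * b k := Nat.mul_le_mul_left _ (hb k)
      _ = _ := (pow_succ _ _).symm
  calc ‖(f + g) k‖ ≤ ‖f k‖ + ‖g k‖ := norm_add_le _ _
    _ ≤ (H k : ℝ) ^ (b k ^ max a a') + (H k : ℝ) ^ (b k ^ max a a') := by
      apply add_le_add
      · exact h1.trans (pow_le_pow_right₀ h3 (Nat.pow_le_pow_right (by have := hb k; omega) (le_max_left _ _)))
      · exact h2.trans (pow_le_pow_right₀ h3 (Nat.pow_le_pow_right (by have := hb k; omega) (le_max_right _ _)))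
    _ = (H k : ℝ) ^ (b k ^ max a a') * 2 := by ring
    _ ≤ (H k : ℝ) ^ (b k ^ max a a') * H k := by gcongr
    _ = (H k : ℝ) ^ (b k ^ max a a' + 1) := (pow_succ _ _).symm
    _ ≤ _ := pow_le_pow_right₀ h3 h4

theorem Bd.mul (hH : ∀ k, 2 ≤ H k) (hb : ∀ k, 2 ≤ b k) {f g : ℕ → ℂ} (hf : Bd U H b f)
    (hg : Bd U H b g) : Bd U H b (f * g) := by
  obtain ⟨a, ha⟩ := hf
  obtain ⟨a', ha'⟩ := hg
  refine ⟨max a a' + 1, ?_⟩
  filter_upwards [ha, ha'] with k h1 h2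
  have h3 : (1 : ℝ) ≤ H k := by exact_mod_cast (by have := hH k; omega : 1 ≤ H k)
  calc ‖(f * g) k‖ = ‖f k‖ * ‖g k‖ := norm_mul _ _
    _ ≤ (H k : ℝ) ^ (b k ^ a) * (H k : ℝ) ^ (b k ^ a') := by gcongr
    _ = (H k : ℝ) ^ (b k ^ a + b k ^ a') := (pow_add _ _ _).symm
    _ ≤ _ := pow_le_pow_right₀ h3 (exp_add (hb k) _ _)

theorem Bd.const (hH : ∀ k, 2 ≤ H k) (hb : ∀ k, 2 ≤ b k) {f : ℕ → ℂ} (M : ℝ)
    (hf : ∀ᶠ k in (U : Filter ℕ), ‖f k‖ ≤ M) : Bd U H b f := by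
  obtain ⟨a, ha⟩ := pow_unbounded_of_one_lt M (one_lt_two)
  refine ⟨a, ?_⟩
  filter_upwards [hf] with k hk
  have h3' : (2 : ℝ) ≤ H k := by exact_mod_cast hH k
  have h3 : (1 : ℝ) ≤ H k := by linarith
  have h5 : a ≤ b k ^ a := (Nat.lt_pow_self (by have := hb k; omega)).le
  calc ‖f k‖ ≤ M := hk
    _ ≤ 2 ^ a := ha.le
    _ ≤ (H k : ℝ) ^ a := by gcongr
    _ ≤ _ := pow_le_pow_right₀ h3 h5

theorem Sm.bd (hH : ∀ k, 2 ≤ H k) {f : ℕ → ℂ} (hf : Sm U H b f) : Bd U H b f := by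
  refine ⟨0, ?_⟩
  filter_upwards [hf 0] with k hk
  have h3' : (2 : ℝ) ≤ H k := by exact_mod_cast hH k
  rw [pow_zero, pow_one] at hk ⊢
  nlinarith [norm_nonneg (f k)]

theorem Sm.add (hH : ∀ k, 2 ≤ H k) (hb : ∀ k, 2 ≤ b k) {f g : ℕ → ℂ} (hf : Sm U H b f)
    (hg : Sm U H b g) : Sm U H b (f + g) := by
  intro a
  filter_upwards [hf (a + 1), hg (a + 1)] with k h1 h2
  have h3' : (2 : ℝ) ≤ H k := by exact_mod_cast hH k
  have h3 : (1 : ℝ) ≤ H k := by linarith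
  have h4 : b k ^ a + 1 ≤ b k ^ (a + 1) := by
    have h5 : 1 ≤ b k ^ a := Nat.one_le_pow _ _ (by have := hb k; omega)
    calc b k ^ a + 1 ≤ b k ^ a * 2 := by omega
      _ ≤ b k ^ a * b k := Nat.mul_le_mul_left _ (hb k)
      _ = _ := (pow_succ _ _).symm
  have h5 : (H k : ℝ) ^ (b k ^ a) * 2 ≤ (H k : ℝ) ^ (b k ^ (a + 1)) :=
    calc (H k : ℝ) ^ (b k ^ a) * 2 ≤ (H k : ℝ) ^ (b k ^ a) * H k := by gcongr
      _ = (H k : ℝ) ^ (b k ^ a + 1) := (pow_succ _ _).symm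
      _ ≤ _ := pow_le_pow_right₀ h3 h4
  have h6 : ‖(f + g) k‖ ≤ ‖f k‖ + ‖g k‖ := norm_add_le _ _
  have h7 : 0 < (H k : ℝ) ^ (b k ^ a) := by positivity
  have h8 : ‖f k‖ * ((H k : ℝ) ^ (b k ^ a) * 2) ≤ 1 :=
    (mul_le_mul_of_nonneg_left h5 (norm_nonneg _)).trans h1
  have h9 : ‖g k‖ * ((H k : ℝ) ^ (b k ^ a) * 2) ≤ 1 :=
    (mul_le_mul_of_nonneg_left h5 (norm_nonneg _)).trans h2
  calc ‖(f + g) k‖ * (H k : ℝ) ^ (b k ^ a) ≤ (‖f k‖ + ‖g k‖) * (H k : ℝ) ^ (b k ^ a) := by gcongr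
    _ ≤ 1 := by nlinarith

theorem Sm.mul (hH : ∀ k, 2 ≤ H k) (hb : ∀ k, 2 ≤ b k) {f g : ℕ → ℂ} (hf : Bd U H b f)
    (hg : Sm U H b g) : Sm U H b (f * g) := by
  intro a
  obtain ⟨a', ha'⟩ := hf
  filter_upwards [ha', hg (max a' a + 1)] with k h1 h2
  have h3' : (2 : ℝ) ≤ H k := by exact_mod_cast hH k
  have h3 : (1 : ℝ) ≤ H k := by linarith
  calc ‖(f * g) k‖ * (H k : ℝ) ^ (b k ^ a) = ‖g k‖ * (‖f k‖ * (H k : ℝ) ^ (b k ^ a)) := by
        rw [Pi.mul_apply, norm_mul]; ring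
    _ ≤ ‖g k‖ * ((H k : ℝ) ^ (b k ^ a') * (H k : ℝ) ^ (b k ^ a)) := by gcongr
    _ = ‖g k‖ * (H k : ℝ) ^ (b k ^ a' + b k ^ a) := by rw [pow_add]
    _ ≤ ‖g k‖ * (H k : ℝ) ^ (b k ^ (max a' a + 1)) := by
      gcongr
      exact exp_add (hb k) _ _
    _ ≤ 1 := h2

/-- the ring of sequences of moderate growth -/
def O (U : Ultrafilter ℕ) {H b : ℕ → ℕ} (hH : ∀ k, 2 ≤ H k) (hb : ∀ k, 2 ≤ b k) : Subring (ℕ → ℂ) where
  carrier := {f | Bd U H b f}
  mul_mem' := fun h1 h2 => Bd.mul hH hb h1 h2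
  one_mem' := Bd.const hH hb 1 (Eventually.of_forall fun k => by simp)
  add_mem' := fun h1 h2 => Bd.add hH hb h1 h2
  zero_mem' := Bd.const hH hb 0 (Eventually.of_forall fun k => by simp)
  neg_mem' := by
    rintro f ⟨a, ha⟩
    refine ⟨a, ?_⟩
    filter_upwards [ha] with k hk
    rwa [Pi.neg_apply, norm_neg]

/-- the ideal of very small sequences -/
def I (U : Ultrafilter ℕ) {H b : ℕ → ℕ} (hH : ∀ k, 2 ≤ H k) (hb : ∀ k, 2 ≤ b k) :
    Ideal (O U hH hb) where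
  carrier := {f | Sm U H b f.1}
  add_mem' := fun h1 h2 => Sm.add hH hb h1 h2
  zero_mem' := fun a => Eventually.of_forall fun k => by simp
  smul_mem' := fun c x hx => Sm.mul hH hb c.2 hx

theorem mem_I {hH : ∀ k, 2 ≤ H k} {hb : ∀ k, 2 ≤ b k} (f : O U hH hb) :
    f ∈ I U hH hb ↔ Sm U H b f.1 := Iff.rfl

theorem not_Sm {f : ℕ → ℂ} (h : ¬ Sm U H b f) :
    ∃ a, ∀ᶠ k in (U : Filter ℕ), 1 ≤ ‖f k‖ * (H k : ℝ) ^ (b k ^ a) := by
  unfold Sm at h
  push Not at h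
  obtain ⟨a, ha⟩ := h
  refine ⟨a, ?_⟩
  have ha' : ∀ᶠ k in (U : Filter ℕ), 1 < ‖f k‖ * (H k : ℝ) ^ (b k ^ a) := ha
  filter_upwards [ha'] with k hk
  exact hk.le

theorem ne_Sm {f : ℕ → ℂ} (hH : ∀ k, 2 ≤ H k) (a : ℕ)
    (h : ∀ᶠ k in (U : Filter ℕ), 1 ≤ ‖f k‖ * (H k : ℝ) ^ (b k ^ a)) (hb : ∀ k, 2 ≤ b k) :
    ¬ Sm U H b f := by
  intro hs
  obtain ⟨k, hk1, hk2⟩ := (h.and (hs (a + 1))).exists
  have h3' : (2 : ℝ) ≤ H k := by exact_mod_cast hH k
  have h3 : (1 : ℝ) ≤ H k := by linarith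
  have h4 : b k ^ a + 1 ≤ b k ^ (a + 1) := by
    have h5 : 1 ≤ b k ^ a := Nat.one_le_pow _ _ (by have := hb k; omega)
    calc b k ^ a + 1 ≤ b k ^ a * 2 := by omega
      _ ≤ b k ^ a * b k := Nat.mul_le_mul_left _ (hb k)
      _ = _ := (pow_succ _ _).symm
  have h5 : (H k : ℝ) ^ (b k ^ a) * 2 ≤ (H k : ℝ) ^ (b k ^ (a + 1)) :=
    calc (H k : ℝ) ^ (b k ^ a) * 2 ≤ (H k : ℝ) ^ (b k ^ a) * H k := by gcongr
      _ = (H k : ℝ) ^ (b k ^ a + 1) := (pow_succ _ _).symm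
      _ ≤ _ := pow_le_pow_right₀ h3 h4
  have h6 := (mul_le_mul_of_nonneg_left h5 (norm_nonneg (f k))).trans hk2
  nlinarith

theorem I_max (hH : ∀ k, 2 ≤ H k) (hb : ∀ k, 2 ≤ b k) : (I U hH hb).IsMaximal := by
  rw [Ideal.isMaximal_iff]
  constructor
  · intro h
    refine ne_Sm hH 0 (Eventually.of_forall fun k => ?_) hb ((mem_I _).1 h)
    have h3' : (2 : ℝ) ≤ H k := by exact_mod_cast hH k
    change 1 ≤ ‖(1 : ℂ)‖ * (H k : ℝ) ^ (b k ^ 0)
    rw [norm_one, one_mul, pow_zero, pow_one]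
    linarith
  · intro J x hIJ hx hxJ
    obtain ⟨a, ha⟩ := not_Sm (fun h => hx ((mem_I x).2 h))
    have hg : Bd U H b (fun k => (x.1 k)⁻¹) := by
      refine ⟨a, ?_⟩
      filter_upwards [ha] with k hk
      rw [norm_inv]
      have h0 : 0 < ‖x.1 k‖ := by
        rcases (norm_nonneg (x.1 k)).eq_or_lt with h | h
        · rw [← h, zero_mul] at hk
          linarith
        · exact h
      rw [inv_le_iff_one_le_mul₀ h0, mul_comm]
      exact hk
    have h1 : (⟨_, hg⟩ : O U hH hb) * x ∈ J := J.mul_mem_left _ hxJ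
    have h2 : 1 - (⟨_, hg⟩ : O U hH hb) * x ∈ I U hH hb := by
      rw [mem_I]
      intro a'
      filter_upwards [ha] with k hk
      have h0 : x.1 k ≠ 0 := by
        intro h
        rw [h, norm_zero, zero_mul] at hk
        linarith
      have : (1 - (⟨_, hg⟩ : O U hH hb) * x).1 k = 0 := by
        change 1 - (x.1 k)⁻¹ * x.1 k = 0
        rw [inv_mul_cancel₀ h0, sub_self]
      rw [this, norm_zero, zero_mul]
      exact zero_le_one
    have h3 := J.add_mem (hIJ h2) h1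
    rwa [sub_add_cancel] at h3

/-- the residue field -/
abbrev Kp (U : Ultrafilter ℕ) {H b : ℕ → ℕ} (hH : ∀ k, 2 ≤ H k) (hb : ∀ k, 2 ≤ b k) : Type :=
  O U hH hb ⧸ I U hH hb

noncomputable instance (hH : ∀ k, 2 ≤ H k) (hb : ∀ k, 2 ≤ b k) : Field (Kp U hH hb) :=
  letI := I_max (U := U) hH hb
  Ideal.Quotient.field (I U hH hb)

/-- integer sequences of polynomial growth -/
def Z (U : Ultrafilter ℕ) (H : ℕ → ℕ) (hH : ∀ k, 2 ≤ H k) : Subring (ℕ → ℤ) where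
  carrier := {r | ∃ c : ℕ, ∀ᶠ k in (U : Filter ℕ), |r k| ≤ (H k : ℤ) ^ c}
  mul_mem' := by
    rintro r s ⟨c, hc⟩ ⟨c', hc'⟩
    refine ⟨c + c', ?_⟩
    filter_upwards [hc, hc'] with k h1 h2
    rw [Pi.mul_apply, abs_mul, pow_add]
    gcongr
  one_mem' := ⟨0, Eventually.of_forall fun k => by simp⟩
  add_mem' := by
    rintro r s ⟨c, hc⟩ ⟨c', hc'⟩
    refine ⟨max c c' + 1, ?_⟩
    filter_upwards [hc, hc'] with k h1 h2
    have h3 : (2 : ℤ) ≤ H k := by exact_mod_cast hH k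
    have h4 : (1 : ℤ) ≤ H k := by omega
    have h5 : (H k : ℤ) ^ c ≤ (H k : ℤ) ^ max c c' := pow_le_pow_right₀ h4 (le_max_left _ _)
    have h6 : (H k : ℤ) ^ c' ≤ (H k : ℤ) ^ max c c' := pow_le_pow_right₀ h4 (le_max_right _ _)
    have h7 : 0 ≤ (H k : ℤ) ^ max c c' := by positivity
    calc |(r + s) k| ≤ |r k| + |s k| := abs_add_le _ _
      _ ≤ (H k : ℤ) ^ max c c' * 2 := by linarith
      _ ≤ (H k : ℤ) ^ max c c' * H k := by gcongr
      _ = _ := (pow_succ _ _).symm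
  zero_mem' := ⟨0, Eventually.of_forall fun k => by simp⟩
  neg_mem' := by
    rintro f ⟨a, ha⟩
    refine ⟨a, ?_⟩
    filter_upwards [ha] with k hk
    rwa [Pi.neg_apply, abs_neg]

theorem Z_bd (hH : ∀ k, 2 ≤ H k) (hb : ∀ k, 2 ≤ b k) (r : Z U H hH) :
    Bd U H b (fun k => ((r.1 k : ℤ) : ℂ)) := by
  obtain ⟨c, hc⟩ := r.2
  refine ⟨c, ?_⟩
  filter_upwards [hc] with k hk
  have h3' : (2 : ℝ) ≤ H k := by exact_mod_cast hH k
  have h3 : (1 : ℝ) ≤ H k := by linarith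
  have h5 : c ≤ b k ^ c := (Nat.lt_pow_self (by have := hb k; omega)).le
  have h6 : (|r.1 k| : ℝ) ≤ (H k : ℝ) ^ c := by exact_mod_cast hk
  calc ‖((r.1 k : ℤ) : ℂ)‖ = |(r.1 k : ℝ)| := Complex.norm_intCast _
    _ ≤ (H k : ℝ) ^ c := h6
    _ ≤ _ := pow_le_pow_right₀ h3 h5

/-- integer sequences in the ring of sequences of moderate growth -/
noncomputable def psi0 (U : Ultrafilter ℕ) {H b : ℕ → ℕ} (hH : ∀ k, 2 ≤ H k) (hb : ∀ k, 2 ≤ b k) :
    Z U H hH →+* O U hH hb where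
  toFun := fun r => ⟨fun k => ((r.1 k : ℤ) : ℂ), Z_bd hH hb r⟩
  map_one' := Subtype.ext (funext fun _ => Int.cast_one)
  map_mul' := fun _ _ => Subtype.ext (funext fun _ => Int.cast_mul _ _)
  map_zero' := Subtype.ext (funext fun _ => Int.cast_zero)
  map_add' := fun _ _ => Subtype.ext (funext fun _ => Int.cast_add _ _)

/-- integer sequences in the residue field -/
noncomputable def psi (U : Ultrafilter ℕ) {H b : ℕ → ℕ} (hH : ∀ k, 2 ≤ H k) (hb : ∀ k, 2 ≤ b k) :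
    Z U H hH →+* Kp U hH hb :=
  (Ideal.Quotient.mk (I U hH hb)).comp (psi0 U hH hb)

theorem psi_ne (hH : ∀ k, 2 ≤ H k) (hb : ∀ k, 2 ≤ b k) (r : Z U H hH)
    (hr : ∀ᶠ k in (U : Filter ℕ), r.1 k ≠ 0) : psi U hH hb r ≠ 0 := by
  intro h
  have h1 := (mem_I _).1 (Ideal.Quotient.eq_zero_iff_mem.1 h)
  refine ne_Sm hH 0 ?_ hb h1
  filter_upwards [hr] with k hk
  have h3' : (2 : ℝ) ≤ H k := by exact_mod_cast hH k
  have h2 : (1 : ℝ) ≤ |(r.1 k : ℝ)| := by exact_mod_cast Int.one_le_abs hk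
  change 1 ≤ ‖((r.1 k : ℤ) : ℂ)‖ * (H k : ℝ) ^ (b k ^ 0)
  rw [Complex.norm_intCast, pow_zero, pow_one]
  nlinarith

theorem charZero (hH : ∀ k, 2 ≤ H k) (hb : ∀ k, 2 ≤ b k) : CharZero (Kp U hH hb) := by
  apply charZero_of_inj_zero
  intro n hn
  by_contra hne
  have h1 : psi U hH hb (n : Z U H hH) = 0 := by
    rw [map_natCast, hn]
  refine psi_ne hH hb (n : Z U H hH) (Eventually.of_forall fun k => ?_) h1
  have h2 : (n : Z U H hH).1 k = (n : ℤ) := by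
    rw [SubringClass.coe_natCast]
    rfl
  rw [h2]
  exact_mod_cast hne

end Ring

section Lift

theorem lift_supported {σ A B : Type} [CommRing A] [CommRing B] (φ : A →+* B)
    (hφ : Function.Surjective φ) {S : Set σ} {G : MvPolynomial σ B} (hG : G ∈ supported B S) :
    ∃ G' ∈ supported A S, map φ G' = G := by
  rw [supported_eq_range_rename] at hG
  obtain ⟨q, rfl⟩ := hG
  obtain ⟨q', rfl⟩ := map_surjective φ hφ q
  refine ⟨rename Subtype.val q', ?_, ?_⟩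
  · rw [supported_eq_range_rename]
    exact ⟨q', rfl⟩
  · exact map_rename φ Subtype.val q'

theorem map_supported {σ A B : Type} [CommRing A] [CommRing B] (φ : A →+* B) {S : Set σ}
    {G : MvPolynomial σ A} (hG : G ∈ supported A S) : map φ G ∈ supported B S := by
  rw [supported_eq_range_rename] at hG ⊢
  obtain ⟨q, rfl⟩ := hG
  exact ⟨map φ q, (map_rename φ Subtype.val q).symm⟩

theorem map_dl {σ A B : Type} [CommRing A] [CommRing B] (φ : A →+* B) (u v : σ)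
    (G : MvPolynomial σ A) : map φ (Alg.dl u v G) = Alg.dl u v (map φ G) := by
  unfold Alg.dl
  rw [map_add, map_mul, map_X, pderiv_map, pderiv_map]

/-- all exponents with entries at most `d` -/
noncomputable def box (σ : Type) [Fintype σ] [DecidableEq σ] (d : ℕ) : Finset (σ →₀ ℕ) :=
  (Fintype.piFinset fun _ : σ => Finset.range (d + 1)).image Finsupp.equivFunOnFinite.symm

theorem mem_box {σ : Type} [Fintype σ] [DecidableEq σ] {d : ℕ} {s : σ →₀ ℕ} :
    s ∈ box σ d ↔ ∀ i, s i ≤ d := by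
  unfold box
  rw [Finset.mem_image]
  constructor
  · rintro ⟨f, hf, rfl⟩ i
    have := Fintype.mem_piFinset.1 hf i
    exact Nat.lt_succ_iff.1 (Finset.mem_range.1 this)
  · intro h
    refine ⟨s, ?_, ?_⟩
    · rw [Fintype.mem_piFinset]
      intro i
      exact Finset.mem_range.2 (Nat.lt_succ_iff.2 (h i))
    · ext i
      rfl

theorem support_box {σ : Type} [Fintype σ] [DecidableEq σ] {d : ℕ} {P : MvPolynomial σ ℤ}
    (hP : P.totalDegree ≤ d) : P.support ⊆ box σ d := by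
  intro s hs
  rw [mem_box]
  intro i
  have h1 := le_totalDegree hs
  have h2 : s i ≤ s.sum fun _ e => e := by
    rw [Finsupp.sum_fintype _ _ (fun _ => rfl)]
    exact Finset.single_le_sum (f := fun i => s i) (fun _ _ => Nat.zero_le _) (Finset.mem_univ i)
  omega

variable {U : Ultrafilter ℕ} {H b : ℕ → ℕ}

/-- the `k`-th term -/
def ep (hH : ∀ k, 2 ≤ H k) (k : ℕ) : Z U H hH →+* ℤ :=
  (Pi.evalRingHom (fun _ : ℕ => ℤ) k).comp (Z U H hH).subtype

theorem seq_lift {σ : Type} [Fintype σ] [DecidableEq σ] (hH : ∀ k, 2 ≤ H k) (hb : ∀ k, 2 ≤ b k)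
    (d : ℕ) (P : ℕ → MvPolynomial σ ℤ) (hP0 : ∀ k, P k ≠ 0) (hdeg : ∀ k, (P k).totalDegree ≤ d)
    (hht : ∀ k s, |coeff s (P k)| ≤ H k) (S : Set σ) (hS : ∀ k, P k ∈ supported ℤ S) :
    ∃ P' : MvPolynomial σ (Z U H hH), (∀ k, map (ep hH k) P' = P k) ∧
      P' ∈ supported (Z U H hH) S ∧ map (psi U hH hb) P' ≠ 0 := by
  have hZ : ∀ s, (fun k => coeff s (P k)) ∈ Z U H hH := fun s =>
    ⟨1, Eventually.of_forall fun k => by rw [pow_one]; exact hht k s⟩
  let P' : MvPolynomial σ (Z U H hH) := ∑ s ∈ box σ d, monomial s ⟨_, hZ s⟩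
  have hc : ∀ s, (coeff s P').1 = fun k => coeff s (P k) := by
    intro s
    have h1 : coeff s P' = if s ∈ box σ d then ⟨_, hZ s⟩ else 0 := by
      simp only [P', coeff_sum, coeff_monomial]
      rw [Finset.sum_ite_eq' (box σ d) s]
    rw [h1]
    split_ifs with h
    · rfl
    · funext k
      have : coeff s (P k) = 0 := by
        by_contra hne
        exact h (support_box (hdeg k) (mem_support_iff.2 hne))
      rw [this]
      rfl
  refine ⟨P', ?_, ?_, ?_⟩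
  · intro k
    ext s
    rw [coeff_map]
    exact congrFun (hc s) k
  · rw [mem_supported]
    intro i hi
    obtain ⟨s, hs, his⟩ := (mem_vars_iff_mem_support _).1 (Finset.mem_coe.1 hi)
    have h1 : coeff s P' ≠ 0 := mem_support_iff.1 hs
    have h2 : ∃ k, coeff s (P k) ≠ 0 := by
      by_contra hcon
      push Not at hcon
      apply h1
      apply Subtype.ext
      rw [hc]
      funext k
      exact hcon k
    obtain ⟨k, hk⟩ := h2
    have h3 := (mem_supported.1 (hS k))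
    exact h3 (Finset.mem_coe.2 ((mem_vars_iff_mem_support _).2 ⟨s, mem_support_iff.2 hk, his⟩))
  · intro h
    have h1 : ∃ s ∈ box σ d, {k | coeff s (P k) ≠ 0} ∈ U := by
      refine (Ultrafilter.finite_biUnion_mem_iff (f := U) (is := (box σ d : Set (σ →₀ ℕ)))
        (s := fun s => {k | coeff s (P k) ≠ 0}) (box σ d).finite_toSet).1 ?_
      apply Filter.mem_of_superset Filter.univ_mem
      intro k _
      obtain ⟨s, hs⟩ := ne_zero_iff.1 (hP0 k)
      exact Set.mem_iUnion₂.2 ⟨s, support_box (hdeg k) (mem_support_iff.2 hs), hs⟩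
    obtain ⟨s, _, hs⟩ := h1
    have h2 : psi U hH hb (coeff s P') ≠ 0 := by
      apply psi_ne
      have : ∀ᶠ k in (U : Filter ℕ), coeff s (P k) ≠ 0 := hs
      filter_upwards [this] with k hk
      rw [hc]
      exact hk
    apply h2
    rw [← coeff_map, h, coeff_zero]

/-- evaluation at bounded points -/
theorem ev0 {σ : Type} (hH : ∀ k, 2 ≤ H k) (hb : ∀ k, 2 ≤ b k) (y : σ → ℕ → ℂ)
    (hy : ∀ s, Bd U H b (y s)) (G : MvPolynomial σ (Z U H hH)) (k : ℕ) :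
    (eval₂Hom (psi0 U hH hb) (fun s => (⟨y s, hy s⟩ : O U hH hb)) G).1 k =
      aeval (fun s => y s k) (map (ep hH k) G) := by
  induction G using MvPolynomial.induction_on with
  | C a =>
    rw [eval₂Hom_C, map_C, aeval_C]
    rfl
  | add p q hp hq =>
    rw [map_add, map_add, map_add, ← hp, ← hq]
    rfl
  | mul_X p s hp =>
    rw [map_mul, map_mul, map_mul, ← hp, eval₂Hom_X', map_X, aeval_X]
    rfl

theorem ev1 {σ : Type} (hH : ∀ k, 2 ≤ H k) (hb : ∀ k, 2 ≤ b k) (y : σ → ℕ → ℂ)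
    (hy : ∀ s, Bd U H b (y s)) (G : MvPolynomial σ (Z U H hH)) :
    eval₂Hom (psi U hH hb) (fun s => (Ideal.Quotient.mk (I U hH hb) ⟨y s, hy s⟩ : Kp U hH hb)) G = 0 ↔
      Sm U H b (fun k => aeval (fun s => y s k) (map (ep hH k) G)) := by
  have h1 : eval₂Hom (psi U hH hb)
      (fun s => (Ideal.Quotient.mk (I U hH hb) ⟨y s, hy s⟩ : Kp U hH hb)) G =
      Ideal.Quotient.mk (I U hH hb)
        (eval₂Hom (psi0 U hH hb) (fun s => (⟨y s, hy s⟩ : O U hH hb)) G) := by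
    rw [← RingHom.comp_apply, comp_eval₂Hom]
    rfl
  rw [h1, Ideal.Quotient.eq_zero_iff_mem, mem_I]
  have h2 : (eval₂Hom (psi0 U hH hb) (fun s => (⟨y s, hy s⟩ : O U hH hb)) G).1 =
      fun k => aeval (fun s => y s k) (map (ep hH k) G) := funext (ev0 hH hb y hy G)
  rw [h2]

end Lift

section Struct
open Pool.Agent.Helper78.SC.Cov (pt)

variable {n : ℕ}

/-- at the point `z`, level `m` fails at scale `H`, with exponent `C` -/
def Fail (m d H C : ℕ) (z : Fin n → ℂ) : Prop :=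
  ∀ τ : Finset (Fin n ⊕ Fin n), τ.card = m → ∃ P : MvPolynomial (Fin n ⊕ Fin n) ℤ, P ≠ 0 ∧
    P.vars ⊆ τ ∧ P.totalDegree ≤ d ∧ (∀ s, |P.coeff s| ≤ (H : ℤ)) ∧
    ‖aeval (pt z) P‖ * (H : ℝ) ^ C < 1

/-- the structure found at a bad point -/
def Str (m D q C0 H : ℕ) (z : Fin n → ℂ) : Prop :=
  ∃ J : Finset (Fin n), 2 * J.card < m ∧ ∃ e : ℕ, C0 ≤ e ∧ ∀ i ∉ J,
    ∃ G : MvPolynomial (Fin n ⊕ Fin n) ℤ, G ∈ supported ℤ (Alg.SJ (insert i J)) ∧
      G.support ⊆ box (Fin n ⊕ Fin n) D ∧ (∀ s, |G.coeff s| ≤ (H : ℤ) ^ D) ∧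
      ‖aeval (pt z) G‖ * (H : ℝ) ^ (q * e) ≤ 1 ∧
      1 ≤ ‖aeval (pt z) (Alg.dl (Sum.inl i) (Sum.inr i) G)‖ * (H : ℝ) ^ e

theorem struct (n m d : ℕ) (R : ℝ) : ∃ D : ℕ, ∀ q C0 : ℕ, ∃ C : ℕ, ∀ H : ℕ, 2 ≤ H →
    ∀ z : Fin n → ℂ, (∀ i, ‖z i‖ ≤ R) → Fail m d H C z → Str m D q C0 H z := by
  by_contra hcon
  push Not at hcon
  choose q C0 hcon using hcon
  let b : ℕ → ℕ := fun k => q k + C0 k + k + 2
  have hb : ∀ k, 2 ≤ b k := fun k => by simp only [b]; omega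
  choose H hH z hz hF hS using fun k => hcon k (b k ^ k)
  let U : Ultrafilter ℕ := hyperfilter ℕ
  have hU : (U : Filter ℕ) ≤ atTop := by
    have := Nat.hyperfilter_le_atTop
    exact this
  let y : (Fin n ⊕ Fin n) → ℕ → ℂ := fun s k => pt (z k) s
  have hy : ∀ s, Bd U H b (y s) := by
    intro s
    refine Bd.const hH hb (max R (Real.exp R)) (Eventually.of_forall fun k => ?_)
    rcases s with j | j
    · exact (hz k j).trans (le_max_left _ _)
    · refine le_trans ?_ (le_max_right _ _)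
      change ‖Complex.exp (z k j)‖ ≤ _
      rw [Complex.norm_exp]
      exact Real.exp_le_exp.2 ((Complex.re_le_norm _).trans (hz k j))
  have hchar := charZero (U := U) hH hb
  let ξ : (Fin n ⊕ Fin n) → Kp U hH hb := fun s => Ideal.Quotient.mk (I U hH hb) ⟨y s, hy s⟩
  let R0 : Subring (Kp U hH hb) := (psi U hH hb).range
  have hev : ∀ G : MvPolynomial (Fin n ⊕ Fin n) (Z U H hH),
      aeval ξ (map (psi U hH hb).rangeRestrict G : MvPolynomial (Fin n ⊕ Fin n) R0) =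
        eval₂Hom (psi U hH hb) ξ G := by
    intro G
    rw [aeval_def, eval₂_map]
    rfl
  have hξ : ∀ i, ξ (Sum.inr i) ≠ 0 := by
    intro i h
    have h1 := (mem_I _).1 (Ideal.Quotient.eq_zero_iff_mem.1 h)
    obtain ⟨a, ha⟩ := pow_unbounded_of_one_lt (Real.exp R) (one_lt_two)
    refine ne_Sm hH a (Eventually.of_forall fun k => ?_) hb h1
    have h3' : (2 : ℝ) ≤ H k := by exact_mod_cast hH k
    have h3 : (1 : ℝ) ≤ H k := by linarith
    have h5 : a ≤ b k ^ a := (Nat.lt_pow_self (by have := hb k; omega)).le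
    have h6 : Real.exp (-R) ≤ ‖y (Sum.inr i) k‖ := by
      change _ ≤ ‖Complex.exp (z k i)‖
      rw [Complex.norm_exp]
      apply Real.exp_le_exp.2
      have := (Complex.abs_re_le_norm (z k i)).trans (hz k i)
      exact (abs_le.1 this).1
    have h7 : Real.exp R ≤ (H k : ℝ) ^ (b k ^ a) :=
      calc Real.exp R ≤ 2 ^ a := ha.le
        _ ≤ (H k : ℝ) ^ a := by gcongr
        _ ≤ _ := pow_le_pow_right₀ h3 h5
    calc (1 : ℝ) = Real.exp (-R) * Real.exp R := by rw [← Real.exp_add]; simp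
      _ ≤ ‖y (Sum.inr i) k‖ * (H k : ℝ) ^ (b k ^ a) :=
        mul_le_mul h6 h7 (Real.exp_pos _).le (norm_nonneg _)
  obtain ⟨J, hJ, hG⟩ := Alg.main (R := R0) (κ := Kp U hH hb) Subtype.val_injective ξ hξ m (by
    intro τ hτ
    choose P hP0 hPv hPd hPh hPe using fun k => hF k τ hτ
    obtain ⟨P', h1, h2, h3⟩ := seq_lift (U := U) (b := b) hH hb d P hP0 hPd hPh (τ : Set _)
      (fun k => mem_supported.2 (Finset.coe_subset.2 (hPv k)))
    refine ⟨map (psi U hH hb).rangeRestrict P', ?_, map_supported _ h2, ?_⟩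
    · intro h
      apply h3
      have h4 : map (psi U hH hb) P' = map R0.subtype (map (psi U hH hb).rangeRestrict P') := by
        rw [MvPolynomial.map_map]
        rfl
      rw [h4, h, map_zero]
    · rw [hev]
      refine (ev1 hH hb y hy P').2 ?_
      intro a
      have ha : ∀ᶠ k in (U : Filter ℕ), a ≤ k := hU (eventually_ge_atTop a)
      filter_upwards [ha] with k hk
      rw [h1]
      have h3' : (2 : ℝ) ≤ H k := by exact_mod_cast hH k
      have h3 : (1 : ℝ) ≤ H k := by linarith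
      refine le_trans ?_ (hPe k).le
      apply mul_le_mul_of_nonneg_left _ (norm_nonneg _)
      exact pow_le_pow_right₀ h3 (Nat.pow_le_pow_right (by have := hb k; omega) hk))
  have hG' : ∀ i : Fin n, ∃ G' : MvPolynomial (Fin n ⊕ Fin n) (Z U H hH), ∃ c : ℕ, i ∉ J →
      G' ∈ supported _ (Alg.SJ (insert i J)) ∧
      Sm U H b (fun k => aeval (pt (z k)) (map (ep hH k) G')) ∧
      (∀ᶠ k in (U : Filter ℕ), 1 ≤ ‖aeval (pt (z k))
        (Alg.dl (Sum.inl i) (Sum.inr i) (map (ep hH k) G'))‖ * (H k : ℝ) ^ (b k ^ c)) ∧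
      (∀ᶠ k in (U : Filter ℕ), (map (ep hH k) G').support ⊆ box _ k ∧
        ∀ s, |coeff s (map (ep hH k) G')| ≤ (H k : ℤ) ^ k) := by
    intro i
    by_cases hi : i ∈ J
    · exact ⟨0, 0, fun h => absurd hi h⟩
    obtain ⟨G, hGs, hG0, hG1⟩ := hG i hi
    obtain ⟨G', hG's, rfl⟩ := lift_supported (psi U hH hb).rangeRestrict
      (RingHom.rangeRestrict_surjective _) hGs
    have h1 : Sm U H b (fun k => aeval (pt (z k)) (map (ep hH k) G')) := by
      rw [hev] at hG0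
      exact (ev1 hH hb y hy G').1 hG0
    have h2 : ¬ Sm U H b (fun k => aeval (pt (z k))
        (Alg.dl (Sum.inl i) (Sum.inr i) (map (ep hH k) G'))) := by
      rw [← map_dl, hev] at hG1
      intro h
      apply hG1
      refine (ev1 hH hb y hy _).2 ?_
      have : (fun k => aeval (fun s => y s k) (map (ep hH k) (Alg.dl (Sum.inl i) (Sum.inr i) G'))) =
          (fun k => aeval (pt (z k)) (Alg.dl (Sum.inl i) (Sum.inr i) (map (ep hH k) G'))) := by
        funext k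
        rw [map_dl]
      rw [this]
      exact h
    obtain ⟨c, hc⟩ := not_Sm h2
    refine ⟨G', c, fun _ => ⟨hG's, h1, hc, ?_⟩⟩
    have h3 : ∀ᶠ k in (U : Filter ℕ), ∀ s ∈ G'.support,
        |coeff s (map (ep hH k) G')| ≤ (H k : ℤ) ^ k := by
      rw [Filter.eventually_all_finset]
      intro s _
      obtain ⟨c', hc'⟩ := (coeff s G').2
      have h4 : ∀ᶠ k in (U : Filter ℕ), c' ≤ k := hU (eventually_ge_atTop c')
      filter_upwards [hc', h4] with k h5 h6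
      have h7 : (1 : ℤ) ≤ H k := by exact_mod_cast (by have := hH k; omega : 1 ≤ H k)
      rw [coeff_map]
      exact (show |(coeff s G').1 k| ≤ _ from h5).trans (pow_le_pow_right₀ h7 h6)
    have h4 : ∀ᶠ k in (U : Filter ℕ), ∀ s ∈ G'.support, ∀ u : Fin n ⊕ Fin n, s u ≤ k := by
      rw [Filter.eventually_all_finset]
      intro s _
      rw [Filter.eventually_all]
      intro u
      exact hU (eventually_ge_atTop _)
    filter_upwards [h3, h4] with k h5 h6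
    have h8 : (map (ep hH k) G').support ⊆ G'.support := support_map_subset _ _
    refine ⟨fun s hs => mem_box.2 (h6 s (h8 hs)), fun s => ?_⟩
    by_cases hs : s ∈ G'.support
    · exact h5 s hs
    · have : coeff s (map (ep hH k) G') = 0 := by
        rw [coeff_map, notMem_support_iff.1 hs, map_zero]
      rw [this, abs_zero]
      positivity
  choose G' c hG' using hG'
  let a : ℕ := Finset.univ.sup c
  have hfin : ∀ᶠ k in (U : Filter ℕ), ∀ i : Fin n, i ∉ J →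
      ‖aeval (pt (z k)) (map (ep hH k) (G' i))‖ * (H k : ℝ) ^ (b k ^ (a + 2)) ≤ 1 ∧
      1 ≤ ‖aeval (pt (z k)) (Alg.dl (Sum.inl i) (Sum.inr i) (map (ep hH k) (G' i)))‖ *
        (H k : ℝ) ^ (b k ^ c i) ∧
      (map (ep hH k) (G' i)).support ⊆ box _ k ∧
        ∀ s, |coeff s (map (ep hH k) (G' i))| ≤ (H k : ℤ) ^ k := by
    rw [Filter.eventually_all]
    intro i
    by_cases hi : i ∈ J
    · exact Eventually.of_forall fun k h => absurd hi h
    · obtain ⟨_, h1, h2, h3⟩ := hG' i hi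
      filter_upwards [h1 (a + 2), h2, h3] with k e1 e2 e3
      exact fun _ => ⟨e1, e2, e3⟩
  obtain ⟨k, hk⟩ := hfin.exists
  have h3' : (2 : ℝ) ≤ H k := by exact_mod_cast hH k
  have h3 : (1 : ℝ) ≤ H k := by linarith
  apply hS k
  refine ⟨J, hJ, b k ^ (a + 1), ?_, ?_⟩
  · calc C0 k ≤ b k := by simp only [b]; omega
      _ = b k ^ 1 := (pow_one _).symm
      _ ≤ _ := Nat.pow_le_pow_right (by have := hb k; omega) (by omega)
  · intro i hi
    obtain ⟨e1, e2, e3, e4⟩ := hk i hi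
    refine ⟨map (ep hH k) (G' i), map_supported _ (hG' i hi).1, e3, e4, ?_, ?_⟩
    · refine le_trans ?_ e1
      apply mul_le_mul_of_nonneg_left _ (norm_nonneg _)
      apply pow_le_pow_right₀ h3
      calc q k * b k ^ (a + 1) ≤ b k * b k ^ (a + 1) :=
            Nat.mul_le_mul_right _ (by simp only [b]; omega)
        _ = b k ^ (a + 2) := by ring
    · refine e2.trans ?_
      apply mul_le_mul_of_nonneg_left _ (norm_nonneg _)
      apply pow_le_pow_right₀ h3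
      apply Nat.pow_le_pow_right (by have := hb k; omega)
      have : c i ≤ a := Finset.le_sup (Finset.mem_univ i)
      omega

end Struct

end Pool.Agent.Helper78.QS.Ultra
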