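import Mathlib
import Pool.Agent.Helper78.QS.Ultra

/-!
# Taylor estimates for polynomials in `z` and `e^z`
-/

set_option autoImplicit false

namespace Pool.Agent.Helper78.QS.Taylor

open MvPolynomial
open Pool.Agent.Helper78.SC.Cov (pt)
open Pool.Agent.Helper78.QS.Alg (dl SJ)
open Pool.Agent.Helper78.QS.Ultra (box mem_box)

variable {n : ℕ}

/-- the partial derivative in direction `j` -/
noncomputable abbrev dj (j : Fin n) (P : MvPolynomial (Fin n ⊕ Fin n) ℤ) :
    MvPolynomial (Fin n ⊕ Fin n) ℤ := dl (Sum.inl j) (Sum.inr j) P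

/-- the differential -/
noncomputable def fd (z : Fin n → ℂ) (P : MvPolynomial (Fin n ⊕ Fin n) ℤ) : (Fin n → ℂ) →L[ℂ] ℂ :=
  ∑ j, aeval (pt z) (dj j P) • (ContinuousLinearMap.proj j : (Fin n → ℂ) →L[ℂ] ℂ)

theorem dl_add {σ R : Type} [CommRing R] (u v : σ) (P Q : MvPolynomial σ R) :
    dl u v (P + Q) = dl u v P + dl u v Q := by
  unfold dl
  rw [map_add, map_add]
  ring

theorem dl_mul {σ R : Type} [CommRing R] (u v : σ) (P Q : MvPolynomial σ R) :
    dl u v (P * Q) = dl u v P * Q + P * dl u v Q := by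
  unfold dl
  rw [pderiv_mul, pderiv_mul]
  ring

theorem dl_C {σ R : Type} [CommRing R] (u v : σ) (a : R) :
    dl u v (C a : MvPolynomial σ R) = 0 := by
  unfold dl
  rw [pderiv_C, pderiv_C, mul_zero, add_zero]

theorem dj_X_inl (j k : Fin n) : dj j (X (Sum.inl k)) = if j = k then 1 else 0 := by
  unfold dj dl
  rw [pderiv_X, pderiv_X]
  split_ifs with h
  · subst h
    rw [Pi.single_eq_same, Pi.single_eq_of_ne (by simp), mul_zero, add_zero]
  · rw [Pi.single_eq_of_ne (by simpa using Ne.symm h), Pi.single_eq_of_ne (by simp), mul_zero, add_zero]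

theorem dj_X_inr (j k : Fin n) : dj j (X (Sum.inr k)) = if j = k then X (Sum.inr k) else 0 := by
  unfold dj dl
  rw [pderiv_X, pderiv_X]
  split_ifs with h
  · subst h
    rw [Pi.single_eq_same, Pi.single_eq_of_ne (by simp), mul_one, zero_add]
  · rw [Pi.single_eq_of_ne (by simp), Pi.single_eq_of_ne (by simpa using Ne.symm h), mul_zero, add_zero]

theorem fd_apply (z v : Fin n → ℂ) (P : MvPolynomial (Fin n ⊕ Fin n) ℤ) :
    fd z P v = ∑ j, aeval (pt z) (dj j P) * v j := by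
  unfold fd
  rw [sum_apply]
  rfl

theorem hasDeriv (z : Fin n → ℂ) (P : MvPolynomial (Fin n ⊕ Fin n) ℤ) :
    HasFDerivAt (fun x : Fin n → ℂ => aeval (pt x) P) (fd z P) z := by
  induction P using MvPolynomial.induction_on with
  | C a =>
    have h : fd z (C a) = 0 := by
      ext v
      rw [fd_apply]
      unfold dj
      simp only [dl_C, map_zero, zero_mul, Finset.sum_const_zero]
      rfl
    rw [h]
    simp only [aeval_C]
    exact hasFDerivAt_const _ _
  | add p q hp hq =>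
    have h : fd z (p + q) = fd z p + fd z q := by
      ext v
      change _ = fd z p v + fd z q v
      rw [fd_apply, fd_apply, fd_apply]
      unfold dj
      simp only [dl_add, map_add, add_mul, Finset.sum_add_distrib]
    rw [h]
    simp only [map_add]
    exact hp.add hq
  | mul_X p s hp =>
    have hX : HasFDerivAt (fun x : Fin n → ℂ => pt x s) (fd z (X s)) z := by
      rcases s with k | k
      · have h1 : fd z (X (Sum.inl k)) = (ContinuousLinearMap.proj k : (Fin n → ℂ) →L[ℂ] ℂ) := by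
          ext v
          rw [fd_apply]
          simp only [dj_X_inl]
          rw [Finset.sum_eq_single k]
          · rw [if_pos rfl, map_one, one_mul]
            rfl
          · intro j _ hj
            rw [if_neg hj, map_zero, zero_mul]
          · intro h
            exact absurd (Finset.mem_univ _) h
        rw [h1]
        exact hasFDerivAt_apply k z
      · have h1 : fd z (X (Sum.inr k)) = Complex.exp (z k) •
            (ContinuousLinearMap.proj k : (Fin n → ℂ) →L[ℂ] ℂ) := by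
          ext v
          rw [fd_apply]
          simp only [dj_X_inr]
          rw [Finset.sum_eq_single k]
          · rw [if_pos rfl, aeval_X]
            rfl
          · intro j _ hj
            rw [if_neg hj, map_zero, zero_mul]
          · intro h
            exact absurd (Finset.mem_univ _) h
        rw [h1]
        have h : HasFDerivAt (fun x : Fin n → ℂ => x k)
          (ContinuousLinearMap.proj k : (Fin n → ℂ) →L[ℂ] ℂ) z := hasFDerivAt_apply k z
        exact h.cexp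
    have h : fd z (p * X s) = aeval (pt z) p • fd z (X s) + pt z s • fd z p := by
      ext v
      change _ = aeval (pt z) p * fd z (X s) v + pt z s * fd z p v
      rw [fd_apply, fd_apply, fd_apply, Finset.mul_sum, Finset.mul_sum, ← Finset.sum_add_distrib]
      refine Finset.sum_congr rfl (fun j _ => ?_)
      unfold dj
      rw [dl_mul, map_add, map_mul, map_mul, aeval_X]
      ring
    rw [h]
    simp only [map_mul, aeval_X]
    exact hp.mul hX

theorem continuous_ev (P : MvPolynomial (Fin n ⊕ Fin n) ℤ) :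
    Continuous (fun x : Fin n → ℂ => aeval (pt x) P) :=
  continuous_iff_continuousAt.2 (fun z => (hasDeriv z P).continuousAt)

/-- boundedness on balls -/
theorem T0 (R : ℝ) (P : MvPolynomial (Fin n ⊕ Fin n) ℤ) :
    ∃ L : ℝ, 0 ≤ L ∧ ∀ z : Fin n → ℂ, ‖z‖ ≤ R → ‖aeval (pt z) P‖ ≤ L := by
  obtain ⟨L, hL⟩ := (isCompact_closedBall (0 : Fin n → ℂ) R).exists_bound_of_continuousOn
    (continuous_ev P).continuousOn
  exact ⟨max L 0, le_max_right _ _, fun z hz => (hL z (by simpa using hz)).trans (le_max_left _ _)⟩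

theorem fd_norm_le (z : Fin n → ℂ) (P : MvPolynomial (Fin n ⊕ Fin n) ℤ) (L : ℝ)
    (hL : ∀ j, ‖aeval (pt z) (dj j P)‖ ≤ L) : ‖fd z P‖ ≤ n * L := by
  unfold fd
  calc ‖∑ j, aeval (pt z) (dj j P) • (ContinuousLinearMap.proj j : (Fin n → ℂ) →L[ℂ] ℂ)‖
      ≤ ∑ j : Fin n, ‖aeval (pt z) (dj j P) • (ContinuousLinearMap.proj j : (Fin n → ℂ) →L[ℂ] ℂ)‖ :=
        norm_sum_le _ _
    _ ≤ ∑ _j : Fin n, L := by
      refine Finset.sum_le_sum (fun j _ => ?_)
      rw [norm_smul]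
      have h1 : ‖(ContinuousLinearMap.proj j : (Fin n → ℂ) →L[ℂ] ℂ)‖ ≤ 1 :=
        ContinuousLinearMap.opNorm_le_bound _ zero_le_one (fun x => by
          rw [one_mul]
          exact norm_le_pi_norm x j)
      calc _ ≤ L * 1 := mul_le_mul (hL j) h1 (norm_nonneg _) ((norm_nonneg _).trans (hL j))
        _ = L := mul_one _
    _ = n * L := by simp

/-- Lipschitz on balls -/
theorem T1 (R : ℝ) (P : MvPolynomial (Fin n ⊕ Fin n) ℤ) :
    ∃ L : ℝ, 0 ≤ L ∧ ∀ z z' : Fin n → ℂ, ‖z‖ ≤ R → ‖z'‖ ≤ R →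
      ‖aeval (pt z') P - aeval (pt z) P‖ ≤ L * ‖z' - z‖ := by
  choose L hL0 hL using fun j => T0 R (dj (n := n) j P)
  refine ⟨n * ∑ j, L j, mul_nonneg (Nat.cast_nonneg _) (Finset.sum_nonneg (fun j _ => hL0 j)), ?_⟩
  intro z z' hz hz'
  apply Convex.norm_image_sub_le_of_norm_hasFDerivWithin_le (𝕜 := ℂ)
    (f := fun x => aeval (pt x) P) (f' := fun x => fd x P) (s := Metric.closedBall 0 R)
  · intro x _
    exact (hasDeriv x P).hasFDerivWithinAt
  · intro x hx
    apply fd_norm_le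
    intro j
    exact (hL j x (by simpa using hx)).trans
      (Finset.single_le_sum (f := L) (fun j _ => hL0 j) (Finset.mem_univ j))
  · exact convex_closedBall _ _
  · simpa using hz
  · simpa using hz'

/-- Taylor's formula -/
theorem T2 (R : ℝ) (P : MvPolynomial (Fin n ⊕ Fin n) ℤ) :
    ∃ L : ℝ, 0 ≤ L ∧ ∀ z z' : Fin n → ℂ, ‖z‖ ≤ R → ‖z'‖ ≤ R →
      ‖aeval (pt z') P - aeval (pt z) P - ∑ j, aeval (pt z) (dj j P) * (z' j - z j)‖
        ≤ L * ‖z' - z‖ ^ 2 := by
  choose L hL0 hL using fun j => T1 R (dj (n := n) j P)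
  refine ⟨n * ∑ j, L j, mul_nonneg (Nat.cast_nonneg _) (Finset.sum_nonneg (fun j _ => hL0 j)), ?_⟩
  intro z z' hz hz'
  have h1 := Convex.norm_image_sub_le_of_norm_hasFDerivWithin_le (𝕜 := ℂ)
    (f := fun x => aeval (pt x) P - fd z P x) (f' := fun x => fd x P - fd z P)
    (s := Metric.closedBall 0 R ∩ Metric.closedBall z ‖z' - z‖) (x := z) (y := z')
    (C := (n * ∑ j, L j) * ‖z' - z‖) (by
      intro x _
      exact ((hasDeriv x P).sub (fd z P).hasFDerivAt).hasFDerivWithinAt) (by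
      rintro x ⟨hx1, hx2⟩
      have hx1' : ‖x‖ ≤ R := by simpa using hx1
      have hx2' : ‖x - z‖ ≤ ‖z' - z‖ := by
        rw [← dist_eq_norm]
        exact Metric.mem_closedBall.1 hx2
      refine ContinuousLinearMap.opNorm_le_bound _ (mul_nonneg (mul_nonneg (Nat.cast_nonneg _)
        (Finset.sum_nonneg (fun j _ => hL0 j))) (norm_nonneg _)) (fun v => ?_)
      change ‖fd x P v - fd z P v‖ ≤ _
      rw [fd_apply, fd_apply, ← Finset.sum_sub_distrib]
      calc ‖∑ j, (aeval (pt x) (dj j P) * v j - aeval (pt z) (dj j P) * v j)‖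
          ≤ ∑ j, ‖aeval (pt x) (dj j P) * v j - aeval (pt z) (dj j P) * v j‖ := norm_sum_le _ _
        _ ≤ ∑ _j : Fin n, ((∑ j, L j) * ‖z' - z‖) * ‖v‖ := by
          refine Finset.sum_le_sum (fun j _ => ?_)
          rw [← sub_mul, norm_mul]
          have h3 : ‖aeval (pt x) (dj j P) - aeval (pt z) (dj j P)‖ ≤ (∑ j, L j) * ‖z' - z‖ :=
            (hL j z x hz hx1').trans (mul_le_mul
              (Finset.single_le_sum (f := L) (fun j _ => hL0 j) (Finset.mem_univ j)) hx2'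
              (norm_nonneg _) (Finset.sum_nonneg (fun j _ => hL0 j)))
          exact mul_le_mul h3 (norm_le_pi_norm v j) (norm_nonneg _) ((norm_nonneg _).trans h3)
        _ = (n * ∑ j, L j) * ‖z' - z‖ * ‖v‖ := by simp; ring)
    ((convex_closedBall _ _).inter (convex_closedBall _ _))
    ⟨by simpa using hz, Metric.mem_closedBall_self (norm_nonneg _)⟩
    ⟨by simpa using hz', by rw [Metric.mem_closedBall, dist_eq_norm]⟩
  have h2 : fd z P z' - fd z P z = ∑ j, aeval (pt z) (dj j P) * (z' j - z j) := by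
    rw [← map_sub, fd_apply]
    rfl
  have h3 : aeval (pt z') P - aeval (pt z) P - ∑ j, aeval (pt z) (dj j P) * (z' j - z j) =
      (aeval (pt z') P - fd z P z') - (aeval (pt z) P - fd z P z) := by
    rw [← h2]
    ring
  rw [h3, sq, ← mul_assoc]
  exact h1

theorem lin (φ : MvPolynomial (Fin n ⊕ Fin n) ℤ →+ ℂ) {B : Finset ((Fin n ⊕ Fin n) →₀ ℕ)}
    {P : MvPolynomial (Fin n ⊕ Fin n) ℤ} (hP : P.support ⊆ B) :
    φ P = ∑ s ∈ B, ((coeff s P : ℤ) : ℂ) * φ (monomial s 1) := by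
  have h1 : P = ∑ s ∈ B, monomial s (coeff s P) := by
    conv_lhs => rw [← support_sum_monomial_coeff P]
    refine Finset.sum_subset hP (fun s _ hs => ?_)
    rw [notMem_support_iff.1 hs, monomial_zero]
  conv_lhs => rw [h1]
  rw [map_sum]
  refine Finset.sum_congr rfl (fun s _ => ?_)
  have h2 : monomial s (coeff s P) = (coeff s P) • (monomial s 1 : MvPolynomial (Fin n ⊕ Fin n) ℤ) := by
    rw [smul_monomial]
    simp
  rw [h2, map_zsmul, zsmul_eq_mul]

theorem lin_bound (φ : MvPolynomial (Fin n ⊕ Fin n) ℤ →+ ℂ) {B : Finset ((Fin n ⊕ Fin n) →₀ ℕ)}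
    {P : MvPolynomial (Fin n ⊕ Fin n) ℤ} (hP : P.support ⊆ B) {A : ℝ}
    (hA : ∀ s, |((coeff s P : ℤ) : ℝ)| ≤ A) (L : ((Fin n ⊕ Fin n) →₀ ℕ) → ℝ) (M : ℝ) (hA0 : 0 ≤ A)
    (hL : ∀ s, ‖φ (monomial s 1)‖ ≤ L s * M) : ‖φ P‖ ≤ (∑ s ∈ B, L s) * A * M := by
  rw [lin φ hP]
  calc ‖∑ s ∈ B, ((coeff s P : ℤ) : ℂ) * φ (monomial s 1)‖
      ≤ ∑ s ∈ B, ‖((coeff s P : ℤ) : ℂ) * φ (monomial s 1)‖ := norm_sum_le _ _
    _ ≤ ∑ s ∈ B, A * (L s * M) := by
      refine Finset.sum_le_sum (fun s _ => ?_)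
      rw [norm_mul, Complex.norm_intCast]
      exact mul_le_mul (hA s) (hL s) (norm_nonneg _) hA0
    _ = _ := by
      rw [Finset.sum_mul, Finset.sum_mul]
      refine Finset.sum_congr rfl (fun s _ => ?_)
      ring

/-- uniform estimates -/
theorem unif (D : ℕ) (R : ℝ) : ∃ Λ : ℕ, ∀ P : MvPolynomial (Fin n ⊕ Fin n) ℤ,
    P.support ⊆ box (Fin n ⊕ Fin n) D → ∀ A : ℝ, 0 ≤ A → (∀ s, |((coeff s P : ℤ) : ℝ)| ≤ A) →
    ∀ z z' : Fin n → ℂ, ‖z‖ ≤ R → ‖z'‖ ≤ R →
      (∀ j, ‖aeval (pt z) (dj j P)‖ ≤ Λ * A) ∧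
      ‖aeval (pt z') P - aeval (pt z) P - ∑ j, aeval (pt z) (dj j P) * (z' j - z j)‖
        ≤ Λ * A * ‖z' - z‖ ^ 2 := by
  choose L0 hL00 hL0 using fun (s : (Fin n ⊕ Fin n) →₀ ℕ) (j : Fin n) =>
    T0 R (dj (n := n) j (monomial s 1))
  choose L2 hL20 hL2 using fun (s : (Fin n ⊕ Fin n) →₀ ℕ) => T2 R (n := n) (monomial s 1)
  let Q : ((Fin n ⊕ Fin n) →₀ ℕ) → ℝ := fun s => ∑ j, L0 s j + L2 s
  obtain ⟨Λ, hΛ⟩ := exists_nat_ge (∑ s ∈ box (Fin n ⊕ Fin n) D, Q s)
  refine ⟨Λ, ?_⟩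
  intro P hP A hA0 hA z z' hz hz'
  constructor
  · intro j
    let φ : MvPolynomial (Fin n ⊕ Fin n) ℤ →+ ℂ :=
      AddMonoidHom.mk' (fun P => aeval (pt z) (dj j P)) (fun a b => by
        unfold dj
        rw [dl_add, map_add])
    have h1 := lin_bound φ hP hA Q 1 hA0 (fun s => by
      rw [mul_one]
      refine (hL0 s j z hz).trans ?_
      have h2 := Finset.single_le_sum (f := L0 s) (fun j _ => hL00 s j) (Finset.mem_univ j)
      have h3 := hL20 s
      simp only [Q]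
      linarith)
    rw [mul_one] at h1
    exact h1.trans (mul_le_mul_of_nonneg_right hΛ hA0)
  · let φ : MvPolynomial (Fin n ⊕ Fin n) ℤ →+ ℂ :=
      AddMonoidHom.mk' (fun P => aeval (pt z') P - aeval (pt z) P -
        ∑ j, aeval (pt z) (dj j P) * (z' j - z j)) (fun a b => by
        have : ∑ j, aeval (pt z) (dj j (a + b)) * (z' j - z j) =
            ∑ j, aeval (pt z) (dj j a) * (z' j - z j) + ∑ j, aeval (pt z) (dj j b) * (z' j - z j) := by
          rw [← Finset.sum_add_distrib]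
          refine Finset.sum_congr rfl (fun j _ => ?_)
          unfold dj
          rw [dl_add, map_add]
          ring
        simp only [this, map_add]
        ring)
    have h1 := lin_bound φ hP hA Q (‖z' - z‖ ^ 2) hA0 (fun s => by
      refine (hL2 s z z' hz hz').trans ?_
      apply mul_le_mul_of_nonneg_right _ (by positivity)
      have h2 : 0 ≤ ∑ j, L0 s j := Finset.sum_nonneg (fun j _ => hL00 s j)
      simp only [Q]
      linarith)
    refine h1.trans ?_
    apply mul_le_mul_of_nonneg_right _ (by positivity)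
    exact mul_le_mul_of_nonneg_right hΛ hA0

/-- equality of values -/
theorem ev_congr {S : Set (Fin n ⊕ Fin n)} {P : MvPolynomial (Fin n ⊕ Fin n) ℤ}
    (hP : P ∈ supported ℤ S) {x y : (Fin n ⊕ Fin n) → ℂ} (h : ∀ s ∈ S, x s = y s) :
    aeval x P = aeval y P := by
  rw [supported_eq_range_rename] at hP
  obtain ⟨q, rfl⟩ := hP
  change aeval x (rename _ q) = aeval y (rename _ q)
  rw [aeval_rename, aeval_rename]
  congr 2
  funext s
  exact h s s.2

theorem arith {N Λ A B E F a X Y W : ℝ} (hN : 0 ≤ N) (hΛ0 : 0 ≤ Λ) (hA1 : 1 ≤ A)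
    (hB : 4 + (4 * N + 12) * Λ ≤ B) (hE1 : 1 ≤ E) (hF1 : 1 ≤ F) (ha0 : 0 ≤ a)
    (hX : X * E ≤ 1) (hY : Y * E ≤ 1) (hW : 1 ≤ W * F)
    (hmain : W * a ≤ X + Y + N * (Λ * A * (2 / E)) + Λ * A * (4 / E + a ^ 2))
    (h5 : a * (F * (A * B)) ≤ 2) : a * E ≤ F * (A * B) := by
  have hEpos : 0 < E := by linarith
  have hFpos : 0 < F := by linarith
  have hApos : 0 < A := by linarith
  have hΛA : 0 ≤ Λ * A := mul_nonneg hΛ0 hApos.le
  have h6 := mul_le_mul_of_nonneg_left hmain (by positivity : 0 ≤ F * E)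
  have h7 : F * E * (X + Y + N * (Λ * A * (2 / E)) + Λ * A * (4 / E + a ^ 2)) =
      F * (X * E + Y * E + (2 * N + 4) * (Λ * A) + Λ * A * (a ^ 2 * E)) := by
    field_simp
    ring
  rw [h7] at h6
  have h8 : F * E * (W * a) = (W * F) * (a * E) := by ring
  rw [h8] at h6
  have haE : 0 ≤ a * E := mul_nonneg ha0 hEpos.le
  have h9 : a * E ≤ (W * F) * (a * E) := by
    calc a * E = 1 * (a * E) := (one_mul _).symm
      _ ≤ _ := mul_le_mul_of_nonneg_right hW haE
  have h10 : F * (X * E + Y * E + (2 * N + 4) * (Λ * A) + Λ * A * (a ^ 2 * E)) ≤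
      F * (2 + (2 * N + 4) * (Λ * A)) + F * (Λ * A * (a ^ 2 * E)) := by
    rw [← mul_add]
    apply mul_le_mul_of_nonneg_left _ hFpos.le
    linarith
  have hΛB : 4 * Λ ≤ B := by
    have : 0 ≤ (4 * N + 8) * Λ := by positivity
    linarith
  have hm4 : F * (Λ * A * (a ^ 2 * E)) ≤ (1 / 2) * (a * E) := by
    have h6 : F * (Λ * A) * a ≤ 1 / 2 := by
      have h7 : F * (Λ * A) * a * 4 ≤ a * (F * (A * B)) := by
        have h8 : F * (Λ * A) * a * 4 = (a * (F * A)) * (4 * Λ) := by ring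
        have h9 : a * (F * (A * B)) = (a * (F * A)) * B := by ring
        rw [h8, h9]
        exact mul_le_mul_of_nonneg_left hΛB (by positivity)
      linarith
    calc F * (Λ * A * (a ^ 2 * E)) = (F * (Λ * A) * a) * (a * E) := by ring
      _ ≤ (1 / 2) * (a * E) := mul_le_mul_of_nonneg_right h6 haE
  have hm5 : a * E ≤ F * (4 + (4 * N + 8) * (Λ * A)) := by
    have e1 : F * (4 + (4 * N + 8) * (Λ * A)) = 2 * (F * (2 + (2 * N + 4) * (Λ * A))) := by ring
    rw [e1]
    linarith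
  refine hm5.trans ?_
  apply mul_le_mul_of_nonneg_left _ hFpos.le
  calc 4 + (4 * N + 8) * (Λ * A) ≤ A * (4 + (4 * N + 12) * Λ) := by
        have e1 : A * (4 + (4 * N + 12) * Λ) =
          4 * A + (4 * N + 8) * (Λ * A) + 4 * (Λ * A) := by ring
        rw [e1]
        linarith
    _ ≤ A * B := mul_le_mul_of_nonneg_left hB hApos.le

/-- **the main estimate** -/
theorem est (D : ℕ) (R : ℝ) : ∃ c : ℕ, ∀ H : ℕ, 2 ≤ H → ∀ p e : ℕ, ∀ J : Finset (Fin n), ∀ i ∉ J,
    ∀ G : MvPolynomial (Fin n ⊕ Fin n) ℤ, G ∈ supported ℤ (SJ (insert i J)) →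
    G.support ⊆ box (Fin n ⊕ Fin n) D → (∀ s, |coeff s G| ≤ (H : ℤ) ^ D) →
    ∀ z z' : Fin n → ℂ, ‖z‖ ≤ R → ‖z'‖ ≤ R →
    ‖aeval (pt z) G‖ * (H : ℝ) ^ p ≤ 1 → ‖aeval (pt z') G‖ * (H : ℝ) ^ p ≤ 1 →
    1 ≤ ‖aeval (pt z) (dj i G)‖ * (H : ℝ) ^ e →
    (∀ j ∈ J, ‖z j - z' j‖ * (H : ℝ) ^ p ≤ 2) → ‖z i - z' i‖ * (H : ℝ) ^ (e + c) ≤ 2 →
    ‖z i - z' i‖ * (H : ℝ) ^ p ≤ (H : ℝ) ^ (e + c) := by
  obtain ⟨Λ, hΛ⟩ := unif (n := n) D R
  obtain ⟨c₁, hc₁⟩ := pow_unbounded_of_one_lt (4 + (4 * n + 12) * Λ : ℝ) one_lt_two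
  refine ⟨D + c₁, ?_⟩
  intro H hH p e J i hi G hGs hGb hGc z z' hz hz' h1 h2 h3 h4 h5
  have hH2 : (2 : ℝ) ≤ H := by exact_mod_cast hH
  have hH1 : (1 : ℝ) ≤ H := by linarith
  have hcH : (4 + (4 * n + 12) * Λ : ℝ) ≤ (H : ℝ) ^ c₁ :=
    hc₁.le.trans (by gcongr)
  set A : ℝ := (H : ℝ) ^ D with hA
  have hA1 : 1 ≤ A := one_le_pow₀ hH1
  have hA' : ∀ s, |((coeff s G : ℤ) : ℝ)| ≤ A := fun s => by
    rw [hA]
    exact_mod_cast hGc s
  set E : ℝ := (H : ℝ) ^ p with hE
  have hE1 : 1 ≤ E := one_le_pow₀ hH1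
  set F : ℝ := (H : ℝ) ^ e with hF
  have hF1 : 1 ≤ F := one_le_pow₀ hH1
  set B : ℝ := (H : ℝ) ^ c₁ with hB
  have hB1 : 1 ≤ B := one_le_pow₀ hH1
  have hFK : (H : ℝ) ^ (e + (D + c₁)) = F * (A * B) := by rw [pow_add, pow_add]
  rw [hFK] at h5 ⊢
  set a : ℝ := ‖z i - z' i‖ with ha
  have ha0 : 0 ≤ a := norm_nonneg _
  have hΛ0 : (0 : ℝ) ≤ Λ := Nat.cast_nonneg _
  let z'' : Fin n → ℂ := fun k => if k ∈ insert i J then z' k else z k
  have hz'' : ‖z''‖ ≤ R := by
    rw [pi_norm_le_iff_of_nonneg ((norm_nonneg _).trans hz)]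
    intro k
    simp only [z'']
    split_ifs
    · exact (norm_le_pi_norm z' k).trans hz'
    · exact (norm_le_pi_norm z k).trans hz
  have hG'' : aeval (pt z'') G = aeval (pt z') G := by
    apply ev_congr hGs
    intro s hs
    rcases s with k | k
    · have hk : k ∈ insert i J := hs
      change z'' k = z' k
      simp only [z'', if_pos hk]
    · have hk : k ∈ insert i J := hs
      change Complex.exp (z'' k) = Complex.exp (z' k)
      simp only [z'', if_pos hk]
  obtain ⟨hT0, hT2⟩ := hΛ G hGb A (by linarith) hA' z z'' hz hz''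
  have hδ : ∀ k, k ≠ i → ‖z'' k - z k‖ ≤ 2 / E := by
    intro k hk
    simp only [z'']
    split_ifs with h
    · have hkJ : k ∈ J := by
        rcases Finset.mem_insert.1 h with h | h
        · exact absurd h hk
        · exact h
      rw [norm_sub_rev, le_div_iff₀ (by linarith)]
      exact h4 k hkJ
    · rw [sub_self, norm_zero]
      positivity
  have hi'' : z'' i = z' i := by simp only [z'', if_pos (Finset.mem_insert_self i J)]
  have hsq : ‖z'' - z‖ ^ 2 ≤ 4 / E + a ^ 2 := by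
    have h6 : ‖z'' - z‖ ≤ max (2 / E) a := by
      rw [pi_norm_le_iff_of_nonneg (le_max_of_le_right ha0)]
      intro k
      by_cases hk : k = i
      · refine le_trans ?_ (le_max_right _ _)
        rw [hk, Pi.sub_apply, hi'', ha, norm_sub_rev]
      · exact (hδ k hk).trans (le_max_left _ _)
    have h7 : ‖z'' - z‖ ^ 2 ≤ (max (2 / E) a) ^ 2 := by gcongr
    have h8 : (2 / E) ^ 2 ≤ 4 / E := by
      rw [div_pow, div_le_div_iff₀ (by positivity) (by linarith)]
      nlinarith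
    rcases max_cases (2 / E) a with ⟨h9, _⟩ | ⟨h9, _⟩
    · rw [h9] at h7
      nlinarith [sq_nonneg a]
    · rw [h9] at h7
      have : 0 ≤ 4 / E := by positivity
      linarith
  have hsum : ∑ j, aeval (pt z) (dj j G) * (z'' j - z j) =
      aeval (pt z) (dj i G) * (z' i - z i) +
        ∑ j ∈ Finset.univ.erase i, aeval (pt z) (dj j G) * (z'' j - z j) := by
    rw [← Finset.add_sum_erase _ _ (Finset.mem_univ i), hi'']
  have hrest : ‖∑ j ∈ Finset.univ.erase i, aeval (pt z) (dj j G) * (z'' j - z j)‖ ≤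
      n * (Λ * A * (2 / E)) := by
    calc _ ≤ ∑ j ∈ Finset.univ.erase i, ‖aeval (pt z) (dj j G) * (z'' j - z j)‖ := norm_sum_le _ _
      _ ≤ ∑ j ∈ Finset.univ.erase i, Λ * A * (2 / E) := by
        refine Finset.sum_le_sum (fun j hj => ?_)
        rw [norm_mul]
        exact mul_le_mul (hT0 j) (hδ j (Finset.ne_of_mem_erase hj)) (norm_nonneg _)
          (mul_nonneg hΛ0 (by linarith))
      _ ≤ ∑ j : Fin n, Λ * A * (2 / E) := by
        apply Finset.sum_le_sum_of_subset_of_nonneg (Finset.erase_subset _ _)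
        intro _ _ _
        positivity
      _ = _ := by simp
  have hmain : ‖aeval (pt z) (dj i G)‖ * a ≤ ‖aeval (pt z') G‖ + ‖aeval (pt z) G‖ +
      n * (Λ * A * (2 / E)) + Λ * A * (4 / E + a ^ 2) := by
    have e1 : ‖aeval (pt z) (dj i G)‖ * a = ‖aeval (pt z) (dj i G) * (z' i - z i)‖ := by
      rw [norm_mul, ha, norm_sub_rev]
    have e2 : aeval (pt z) (dj i G) * (z' i - z i) =
        (aeval (pt z') G - aeval (pt z) G) -
        (∑ j ∈ Finset.univ.erase i, aeval (pt z) (dj j G) * (z'' j - z j)) -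
        (aeval (pt z'') G - aeval (pt z) G - ∑ j, aeval (pt z) (dj j G) * (z'' j - z j)) := by
      rw [hsum, hG'']
      ring
    rw [e1, e2]
    have e3 := norm_sub_le ((aeval (pt z') G - aeval (pt z) G) -
        (∑ j ∈ Finset.univ.erase i, aeval (pt z) (dj j G) * (z'' j - z j)))
        (aeval (pt z'') G - aeval (pt z) G - ∑ j, aeval (pt z) (dj j G) * (z'' j - z j))
    have e4 := norm_sub_le (aeval (pt z') G - aeval (pt z) G)
        (∑ j ∈ Finset.univ.erase i, aeval (pt z) (dj j G) * (z'' j - z j))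
    have e5 := norm_sub_le (aeval (pt z') G) (aeval (pt z) G)
    have e6 : Λ * A * ‖z'' - z‖ ^ 2 ≤ Λ * A * (4 / E + a ^ 2) :=
      mul_le_mul_of_nonneg_left hsq (mul_nonneg hΛ0 (by linarith))
    linarith
  exact arith (N := n) (Nat.cast_nonneg _) hΛ0 hA1 hcH hE1 hF1 ha0 h2 h1 h3 hmain h5

end Pool.Agent.Helper78.QS.Taylor
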