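import Mathlib
import Pool.Agent.Helper78.QS.Taylor

/-!
# Covering the points with a given structure
-/

set_option autoImplicit false

namespace Pool.Agent.Helper78.QS.Cover

open MvPolynomial
open Pool.Agent.Helper78.SC.Cov (pt)
open Pool.Agent.Helper78.QS.Alg (dl SJ)
open Pool.Agent.Helper78.QS.Ultra (box mem_box Str)
open Pool.Agent.Helper78.QS.Taylor (dj est)

/-- `S` is covered by at most `N` sets with property `P` -/
def Cv {X : Type} (S : Set X) (N : ℕ) (P : Set X → Prop) : Prop :=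
  ∃ (ι : Type) (_ : Fintype ι) (t : ι → Set X), Fintype.card ι ≤ N ∧ S ⊆ ⋃ i, t i ∧ ∀ i, P (t i)

theorem Cv.mono {X : Type} {S S' : Set X} {N N' : ℕ} {P P' : Set X → Prop} (h : Cv S N P)
    (hS : S' ⊆ S) (hN : N ≤ N') (hP : ∀ A, P A → P' A) : Cv S' N' P' := by
  obtain ⟨ι, hι, t, h1, h2, h3⟩ := h
  exact ⟨ι, hι, t, h1.trans hN, hS.trans h2, fun i => hP _ (h3 i)⟩

theorem Cv.union {X : Type} {𝒥 : Type} [Fintype 𝒥] {S : 𝒥 → Set X} {N : ℕ} {P : Set X → Prop}
    (h : ∀ J, Cv (S J) N P) : Cv (⋃ J, S J) (Fintype.card 𝒥 * N) P := by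
  choose ι hι t h1 h2 h3 using h
  refine ⟨Σ J, ι J, inferInstance, fun p => t p.1 p.2, ?_, ?_, fun p => h3 p.1 p.2⟩
  · rw [Fintype.card_sigma]
    calc ∑ J, Fintype.card (ι J) ≤ ∑ _J : 𝒥, N := Finset.sum_le_sum (fun J _ => h1 J)
      _ = _ := by simp
  · intro x hx
    obtain ⟨J, hJ⟩ := Set.mem_iUnion.1 hx
    obtain ⟨i, hi⟩ := Set.mem_iUnion.1 (h2 J hJ)
    exact Set.mem_iUnion.2 ⟨⟨J, i⟩, hi⟩

theorem Cv.label {X K : Type} [Fintype K] [DecidableEq K] (S : Set X) (lab : X → K → ℤ) (M : K → ℕ)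
    (hM : ∀ x ∈ S, ∀ k, |lab x k| ≤ (M k : ℤ)) :
    Cv S (∏ k, (2 * M k + 1)) (fun A => A ⊆ S ∧ ∀ x ∈ A, ∀ y ∈ A, lab x = lab y) := by
  let T : Finset (K → ℤ) := Fintype.piFinset (fun k => Finset.Icc (-(M k : ℤ)) (M k))
  refine ⟨T, inferInstance, fun a => {x | x ∈ S ∧ lab x = a}, ?_, ?_, ?_⟩
  · rw [Fintype.card_coe, Fintype.card_piFinset]
    apply le_of_eq
    refine Finset.prod_congr rfl (fun k _ => ?_)
    rw [Int.card_Icc]
    omega
  · intro x hx
    refine Set.mem_iUnion.2 ⟨⟨lab x, ?_⟩, hx, rfl⟩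
    rw [Fintype.mem_piFinset]
    intro k
    exact Finset.mem_Icc.2 (abs_le.1 (hM x hx k))
  · intro a
    exact ⟨fun x hx => hx.1, fun x hx y hy => hx.2.trans hy.2.symm⟩

variable {n r : ℕ}

/-- the structure at scale `H`, with parameters `e` and `p` and index set `J` -/
def StrJ (D H p e : ℕ) (J : Finset (Fin n)) (z : Fin n → ℂ) : Prop :=
  ∀ i ∉ J, ∃ G : MvPolynomial (Fin n ⊕ Fin n) ℤ, G ∈ supported ℤ (SJ (insert i J)) ∧
      G.support ⊆ box (Fin n ⊕ Fin n) D ∧ (∀ s, |G.coeff s| ≤ (H : ℤ) ^ D) ∧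
      ‖aeval (pt z) G‖ * (H : ℝ) ^ p ≤ 1 ∧
      1 ≤ ‖aeval (pt z) (dj i G)‖ * (H : ℝ) ^ e

theorem floor_close {x y N : ℝ} (hN : 0 < N) (h : ⌊x * N⌋ = ⌊y * N⌋) : |x - y| * N ≤ 1 := by
  have h1 := Int.floor_le (x * N)
  have h2 := Int.lt_floor_add_one (x * N)
  have h3 := Int.floor_le (y * N)
  have h4 := Int.lt_floor_add_one (y * N)
  rw [h] at h1 h2
  have h5 : |x - y| * N = |(x - y) * N| := by rw [abs_mul, abs_of_pos hN]
  rw [h5, abs_le]
  constructor <;> nlinarith

theorem floor_bound {x : ℝ} {R N : ℕ} (hx : |x| ≤ R) (hN : 1 ≤ N) :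
    |⌊x * N⌋| ≤ (((R + 1) * N : ℕ) : ℤ) := by
  have h1 := Int.floor_le (x * N)
  have h2 := Int.lt_floor_add_one (x * N)
  have hN' : (1 : ℝ) ≤ N := by exact_mod_cast hN
  have h3 := abs_le.1 hx
  have h4 : x * N ≤ R * N := mul_le_mul_of_nonneg_right h3.2 (by linarith)
  have h5 : -(R : ℝ) * N ≤ x * N := mul_le_mul_of_nonneg_right h3.1 (by linarith)
  have h6 : |((⌊x * N⌋ : ℤ) : ℝ)| ≤ (((R + 1) * N : ℕ) : ℝ) := by
    rw [abs_le]
    push_cast
    constructor <;> nlinarith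
  exact_mod_cast h6

theorem cover_J (ι : (Fin r → ℝ) →ₗ[ℝ] ℂ) (hι1 : ∀ v, ‖v‖ ≤ ‖ι v‖) (hι2 : ∀ v, ‖ι v‖ ≤ 2 * ‖v‖)
    (n D R : ℕ) : ∃ c : ℕ, ∀ H : ℕ, 2 ≤ H → ∀ p e : ℕ, ∀ J : Finset (Fin n),
    Cv {x : Fin n → Fin r → ℝ | ‖x‖ ≤ R ∧ StrJ D H p e J (fun j => ι (x j))}
      (H ^ (c + r * J.card * p + r * n * e))
      (fun A => ∀ x ∈ A, ∀ y ∈ A, ‖x - y‖ * (H : ℝ) ^ p ≤ (H : ℝ) ^ (c + e)) := by
  classical
  obtain ⟨c, hc⟩ := est (n := n) D (2 * R)
  obtain ⟨c₃, hc₃⟩ := pow_unbounded_of_one_lt (2 * R + 3 : ℝ) one_lt_two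
  refine ⟨n * (box (Fin n ⊕ Fin n) D).card * (D + 2) + r * n * (c + 2 * c₃) + c + 1, ?_⟩
  intro H hH p e J
  set S : Set (Fin n → Fin r → ℝ) :=
    {x : Fin n → Fin r → ℝ | ‖x‖ ≤ R ∧ StrJ D H p e J (fun j => ι (x j))} with hS
  have hGex : ∀ x : Fin n → Fin r → ℝ, ∀ i : Fin n, ∃ G : MvPolynomial (Fin n ⊕ Fin n) ℤ,
      (x ∈ S → i ∉ J → G ∈ supported ℤ (SJ (insert i J)) ∧
      G.support ⊆ box (Fin n ⊕ Fin n) D ∧ (∀ s, |G.coeff s| ≤ (H : ℤ) ^ D) ∧
      ‖aeval (pt (fun j => ι (x j))) G‖ * (H : ℝ) ^ p ≤ 1 ∧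
      1 ≤ ‖aeval (pt (fun j => ι (x j))) (dj i G)‖ * (H : ℝ) ^ e) := by
    intro x i
    by_cases hx : x ∈ S
    · by_cases hi : i ∈ J
      · exact ⟨0, fun _ h => absurd hi h⟩
      · obtain ⟨G, hG⟩ := hx.2 i hi
        exact ⟨G, fun _ _ => hG⟩
    · exact ⟨0, fun h => absurd h hx⟩
  choose G hG using hGex
  let N : Fin n → ℕ := fun j => if j ∈ J then H ^ p else H ^ (e + c)
  have hN1 : ∀ j, 1 ≤ N j := by
    intro j
    simp only [N]
    split_ifs <;> exact Nat.one_le_pow _ _ (by omega)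
  let lab : (Fin n → Fin r → ℝ) → ((Fin n × box (Fin n ⊕ Fin n) D) ⊕ (Fin n × Fin r)) → ℤ :=
    fun x => Sum.elim (fun q => if q.1 ∈ J then 0 else coeff q.2.1 (G x q.1))
      (fun q => ⌊x q.1 q.2 * (N q.1 : ℝ)⌋)
  let M : ((Fin n × box (Fin n ⊕ Fin n) D) ⊕ (Fin n × Fin r)) → ℕ :=
    Sum.elim (fun _ => H ^ D) (fun q => (R + 1) * N q.1)
  have hlab := Cv.label S lab M (by
    intro x hx k
    rcases k with ⟨i, s⟩ | ⟨j, a⟩
    · simp only [lab, M, Sum.elim_inl]
      split_ifs with h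
      · rw [abs_zero]
        positivity
      · have := (hG x i hx h).2.2.1 s
        push_cast
        exact this
    · simp only [lab, M, Sum.elim_inr]
      apply floor_bound _ (hN1 j)
      calc |x j a| = ‖x j a‖ := (Real.norm_eq_abs _).symm
        _ ≤ ‖x j‖ := norm_le_pi_norm _ _
        _ ≤ ‖x‖ := norm_le_pi_norm _ _
        _ ≤ R := hx.1)
  have hH1 : 1 ≤ H := by omega
  refine hlab.mono subset_rfl ?_ ?_
  · have e1 : 2 * H ^ D + 1 ≤ H ^ (D + 2) := by
      have h1 : 1 ≤ H ^ D := Nat.one_le_pow _ _ (by omega)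
      calc 2 * H ^ D + 1 ≤ H ^ D * (2 * 2) := by omega
        _ ≤ H ^ D * (H * H) := Nat.mul_le_mul_left _ (Nat.mul_le_mul hH hH)
        _ = H ^ (D + 2) := by ring
    have hc₃' : 2 * R + 3 ≤ H ^ c₃ := by
      have h1 : 2 * R + 3 < 2 ^ c₃ := by exact_mod_cast hc₃
      exact h1.le.trans (Nat.pow_le_pow_left hH _)
    have e2 : ∀ j, 2 * ((R + 1) * N j) + 1 ≤ H ^ (c₃ + if j ∈ J then p else e + c) := by
      intro j
      have h1 : N j = H ^ (if j ∈ J then p else e + c) := by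
        simp only [N]
        split_ifs <;> rfl
      have h2 := hN1 j
      calc 2 * ((R + 1) * N j) + 1 ≤ (2 * R + 3) * N j := by nlinarith
        _ ≤ H ^ c₃ * N j := Nat.mul_le_mul_right _ hc₃'
        _ = _ := by rw [h1, ← pow_add]
    rw [Fintype.prod_sum_type]
    have e3 : ∏ q : Fin n × box (Fin n ⊕ Fin n) D, (2 * M (Sum.inl q) + 1) ≤
        H ^ (n * (box (Fin n ⊕ Fin n) D).card * (D + 2)) := by
      calc ∏ q : Fin n × box (Fin n ⊕ Fin n) D, (2 * M (Sum.inl q) + 1)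
          ≤ ∏ _q : Fin n × box (Fin n ⊕ Fin n) D, H ^ (D + 2) :=
            Finset.prod_le_prod' (fun q _ => e1)
        _ = (H ^ (D + 2)) ^ (n * (box (Fin n ⊕ Fin n) D).card) := by
            rw [Finset.prod_const, Finset.card_univ, Fintype.card_prod, Fintype.card_fin,
              Fintype.card_coe]
        _ = _ := by rw [← pow_mul, mul_comm]
    have e4 : ∏ q : Fin n × Fin r, (2 * M (Sum.inr q) + 1) ≤
        H ^ (r * (n * c₃ + (J.card * p + n * (e + c)))) := by
      calc ∏ q : Fin n × Fin r, (2 * M (Sum.inr q) + 1)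
          ≤ ∏ q : Fin n × Fin r, H ^ (c₃ + if q.1 ∈ J then p else e + c) :=
            Finset.prod_le_prod' (fun q _ => e2 q.1)
        _ = H ^ (∑ q : Fin n × Fin r, (c₃ + if q.1 ∈ J then p else e + c)) :=
            Finset.prod_pow_eq_pow_sum _ _ _
        _ ≤ _ := by
          apply Nat.pow_le_pow_right hH1
          rw [Fintype.sum_prod_type]
          have h1 : ∀ j : Fin n, ∑ _a : Fin r, (c₃ + if j ∈ J then p else e + c) =
              r * (c₃ + if j ∈ J then p else e + c) := by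
            intro j
            rw [Finset.sum_const, Finset.card_univ, Fintype.card_fin, smul_eq_mul]
          simp only [h1]
          rw [← Finset.mul_sum]
          apply Nat.mul_le_mul_left
          rw [Finset.sum_add_distrib, Finset.sum_const, Finset.card_univ, Fintype.card_fin,
            smul_eq_mul]
          apply Nat.add_le_add_left
          calc ∑ j : Fin n, (if j ∈ J then p else e + c)
              ≤ ∑ j : Fin n, ((if j ∈ J then p else 0) + (e + c)) := by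
                refine Finset.sum_le_sum (fun j _ => ?_)
                split_ifs <;> omega
            _ = J.card * p + n * (e + c) := by
              rw [Finset.sum_add_distrib, Finset.sum_const, Finset.card_univ, Fintype.card_fin,
                smul_eq_mul, ← Finset.sum_filter, Finset.sum_const, smul_eq_mul]
              congr 3
              ext j
              simp
    calc _ ≤ H ^ (n * (box (Fin n ⊕ Fin n) D).card * (D + 2)) *
          H ^ (r * (n * c₃ + (J.card * p + n * (e + c)))) := Nat.mul_le_mul e3 e4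
      _ = H ^ (n * (box (Fin n ⊕ Fin n) D).card * (D + 2) +
          (r * (n * c₃ + (J.card * p + n * (e + c))))) := (pow_add _ _ _).symm
      _ ≤ _ := by
        apply Nat.pow_le_pow_right hH1
        have h1 : r * (n * c₃ + (J.card * p + n * (e + c))) =
          r * n * (c + c₃) + r * J.card * p + r * n * e := by ring
        rw [h1]
        have h2 : r * n * (c + c₃) ≤ r * n * (c + 2 * c₃) := Nat.mul_le_mul_left _ (by omega)
        omega
  · rintro A ⟨hAS, hAl⟩ x hx y hy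
    have hxS := hAS hx
    have hyS := hAS hy
    have hl := hAl x hx y hy
    have hHr : (1 : ℝ) ≤ H := by exact_mod_cast hH1
    have hco : ∀ j a, |x j a - y j a| * (N j : ℝ) ≤ 1 := by
      intro j a
      apply floor_close
      · exact_mod_cast (by have := hN1 j; omega : 0 < N j)
      · exact congrFun hl (Sum.inr (j, a))
    have hco2 : ∀ j, ‖x j - y j‖ * (N j : ℝ) ≤ 1 := by
      intro j
      have hNpos : (0 : ℝ) < N j := by exact_mod_cast (by have := hN1 j; omega : 0 < N j)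
      rw [← le_div_iff₀ hNpos, pi_norm_le_iff_of_nonneg (by positivity)]
      intro a
      rw [le_div_iff₀ hNpos]
      exact hco j a
    have hzz : ∀ j, ‖ι (x j) - ι (y j)‖ ≤ 2 * ‖x j - y j‖ := by
      intro j
      rw [← map_sub]
      exact hι2 _
    have hzz' : ∀ j, ‖x j - y j‖ ≤ ‖ι (x j) - ι (y j)‖ := by
      intro j
      rw [← map_sub]
      exact hι1 _
    have hnz : ∀ w : Fin n → Fin r → ℝ, ‖w‖ ≤ R → ‖(fun j => ι (w j))‖ ≤ 2 * (R : ℝ) := by
      intro w hw
      rw [pi_norm_le_iff_of_nonneg (by positivity)]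
      intro j
      calc ‖ι (w j)‖ ≤ 2 * ‖w j‖ := hι2 _
        _ ≤ 2 * ‖w‖ := by
          have := norm_le_pi_norm w j
          linarith
        _ ≤ _ := by linarith
    have hpe : ∀ j, ‖x j - y j‖ * (H : ℝ) ^ p ≤ (H : ℝ) ^ (e + c) := by
      intro j
      by_cases hj : j ∈ J
      · have h1 := hco2 j
        have h2 : (N j : ℝ) = (H : ℝ) ^ p := by simp only [N, if_pos hj]; push_cast; rfl
        rw [h2] at h1
        exact h1.trans (one_le_pow₀ hHr)
      · have hGxy : G x j = G y j := by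
          ext s
          by_cases hs : s ∈ box (Fin n ⊕ Fin n) D
          · have := congrFun hl (Sum.inl (j, ⟨s, hs⟩))
            simpa only [lab, Sum.elim_inl, if_neg hj] using this
          · rw [notMem_support_iff.1 (fun h => hs ((hG x j hxS hj).2.1 h)),
              notMem_support_iff.1 (fun h => hs ((hG y j hyS hj).2.1 h))]
        obtain ⟨g1, g2, g3, g4, g5⟩ := hG x j hxS hj
        obtain ⟨_, _, _, g4', _⟩ := hG y j hyS hj
        rw [← hGxy] at g4'
        have h1 := hc H hH p e J j hj (G x j) g1 g2 g3 (fun j => ι (x j)) (fun j => ι (y j))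
          (hnz x hxS.1) (hnz y hyS.1) g4 g4' g5 (by
            intro k hk
            have h2 := hco2 k
            have h3 : (N k : ℝ) = (H : ℝ) ^ p := by simp only [N, if_pos hk]; push_cast; rfl
            rw [h3] at h2
            have h4 := hzz k
            have h5 : 0 < (H : ℝ) ^ p := by positivity
            nlinarith) (by
            have h2 := hco2 j
            have h3 : (N j : ℝ) = (H : ℝ) ^ (e + c) := by simp only [N, if_neg hj]; push_cast; rfl
            rw [h3] at h2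
            have h4 := hzz j
            have h5 : 0 < (H : ℝ) ^ (e + c) := by positivity
            nlinarith)
        refine le_trans ?_ h1
        exact mul_le_mul_of_nonneg_right (hzz' j) (by positivity)
    have hHp : 0 < (H : ℝ) ^ p := by positivity
    have h1 : ‖x - y‖ ≤ (H : ℝ) ^ (e + c) / (H : ℝ) ^ p := by
      rw [pi_norm_le_iff_of_nonneg (by positivity)]
      intro j
      rw [le_div_iff₀ hHp]
      exact hpe j
    rw [le_div_iff₀ hHp] at h1
    refine h1.trans (pow_le_pow_right₀ hHr ?_)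
    omega

end Pool.Agent.Helper78.QS.Cover
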