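import Mathlib
import Pool.Agent.Helper78.QS.Cover

/-!
# The dimension of the set of bad points
-/

set_option autoImplicit false

namespace Pool.Agent.Helper78.QS.Dim

open MvPolynomial MeasureTheory Filter Topology
open scoped ENNReal NNReal
open Pool.Agent.Helper78.SC.Cov (pt)
open Pool.Agent.Helper78.QS.Ultra (Str Fail struct)
open Pool.Agent.Helper78.QS.Cover (Cv StrJ cover_J)

variable {n r : ℕ}

/-- covering at a fixed scale -/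
theorem cover_scale (ι : (Fin r → ℝ) →ₗ[ℝ] ℂ) (hι1 : ∀ v, ‖v‖ ≤ ‖ι v‖)
    (hι2 : ∀ v, ‖ι v‖ ≤ 2 * ‖v‖) (n D R m : ℕ) : ∃ c : ℕ, ∀ H : ℕ, 2 ≤ H → ∀ q e : ℕ,
    Cv {x : Fin n → Fin r → ℝ | ‖x‖ ≤ R ∧ ∃ J : Finset (Fin n), 2 * J.card < m ∧
      StrJ D H (q * e) e J (fun j => ι (x j))}
      (H ^ (c + r * ((m - 1) / 2) * (q * e) + r * n * e))
      (fun A => ∀ x ∈ A, ∀ y ∈ A, ‖x - y‖ * (H : ℝ) ^ (q * e) ≤ (H : ℝ) ^ (c + e)) := by
  classical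
  obtain ⟨c, hc⟩ := cover_J ι hι1 hι2 n D R
  refine ⟨n + c, ?_⟩
  intro H hH q e
  have hH1 : 1 ≤ H := by omega
  have hHr : (1 : ℝ) ≤ H := by exact_mod_cast hH1
  have h1 := Cv.union (𝒥 := {J : Finset (Fin n) // 2 * J.card < m})
    (S := fun J => {x : Fin n → Fin r → ℝ | ‖x‖ ≤ R ∧ StrJ D H (q * e) e J.1 (fun j => ι (x j))})
    (N := H ^ (c + r * ((m - 1) / 2) * (q * e) + r * n * e))
    (P := (fun A => ∀ x ∈ A, ∀ y ∈ A, ‖x - y‖ * (H : ℝ) ^ (q * e) ≤ (H : ℝ) ^ (n + c + e)))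
    (fun J => (hc H hH (q * e) e J.1).mono subset_rfl (by
      apply Nat.pow_le_pow_right hH1
      have h2 : J.1.card ≤ (m - 1) / 2 := by
        have := J.2
        omega
      have h3 : r * J.1.card * (q * e) ≤ r * ((m - 1) / 2) * (q * e) :=
        Nat.mul_le_mul_right _ (Nat.mul_le_mul_left _ h2)
      omega) (fun A hA x hx y hy => (hA x hx y hy).trans (pow_le_pow_right₀ hHr (by omega))))
  refine h1.mono ?_ ?_ (fun _ h => h)
  · rintro x ⟨hx, J, hJ, hS⟩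
    exact Set.mem_iUnion.2 ⟨⟨J, hJ⟩, hx, hS⟩
  · have h2 : Fintype.card {J : Finset (Fin n) // 2 * J.card < m} ≤ H ^ n := by
      calc Fintype.card {J : Finset (Fin n) // 2 * J.card < m} ≤ Fintype.card (Finset (Fin n)) :=
            Fintype.card_subtype_le _
        _ = 2 ^ n := by rw [Fintype.card_finset, Fintype.card_fin]
        _ ≤ H ^ n := Nat.pow_le_pow_left hH _
    calc _ ≤ H ^ n * H ^ (c + r * ((m - 1) / 2) * (q * e) + r * n * e) := Nat.mul_le_mul_right _ h2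
      _ = _ := by
        rw [← pow_add]
        congr 1
        ring

/-- the numerical estimate -/
theorem num {H : ℕ} (hH : 2 ≤ H) {c w' n' q e c₆ t j : ℕ} {s : ℝ}
    (hq : (n' : ℝ) + s + 1 ≤ q * (s - w')) (hc₆ : (c : ℝ) + c * s ≤ c₆)
    (he : c₆ + 2 + t + j ≤ e) :
    ((H ^ (c + w' * (q * e) + n' * e) : ℕ) : ℝ) * ((H : ℝ) ^ (c + e) / (H : ℝ) ^ (q * e)) ^ s ≤
      ((1 / (H : ℝ)) ^ 2 * (1 / 2) ^ j) * (1 / 2) ^ t := by
  have hH2 : (2 : ℝ) ≤ H := by exact_mod_cast hH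
  have hH0 : (0 : ℝ) < H := by linarith
  have h1 : (H : ℝ) ^ (c + e) / (H : ℝ) ^ (q * e) = (H : ℝ) ^ (((c + e : ℕ) : ℝ) - ((q * e : ℕ) : ℝ)) := by
    rw [Real.rpow_sub hH0, Real.rpow_natCast, Real.rpow_natCast]
  have h2 : ((H ^ (c + w' * (q * e) + n' * e) : ℕ) : ℝ) =
      (H : ℝ) ^ (((c + w' * (q * e) + n' * e : ℕ)) : ℝ) := by
    rw [Real.rpow_natCast]
    push_cast
    rfl
  rw [h1, h2, ← Real.rpow_mul hH0.le, ← Real.rpow_add hH0]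
  have he0 : (0 : ℝ) ≤ e := Nat.cast_nonneg _
  have he' : ((c₆ : ℝ) + 2 + t + j) ≤ e := by exact_mod_cast he
  have h3 : (((c + w' * (q * e) + n' * e : ℕ)) : ℝ) + (((c + e : ℕ) : ℝ) - ((q * e : ℕ) : ℝ)) * s ≤
      -((2 + t + j : ℕ) : ℝ) := by
    push_cast
    have h4 : (c : ℝ) + w' * (q * e) + n' * e + (c + e - q * e) * s =
        (c + c * s) + e * (n' + s - q * (s - w')) := by ring
    rw [h4]
    have h5 : (e : ℝ) * (n' + s - q * (s - w')) ≤ e * (-1) :=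
      mul_le_mul_of_nonneg_left (by linarith) he0
    linarith
  calc (H : ℝ) ^ ((((c + w' * (q * e) + n' * e : ℕ)) : ℝ) +
        (((c + e : ℕ) : ℝ) - ((q * e : ℕ) : ℝ)) * s)
      ≤ (H : ℝ) ^ (-((2 + t + j : ℕ) : ℝ)) :=
        Real.rpow_le_rpow_of_exponent_le (by linarith) h3
    _ = (1 / (H : ℝ)) ^ (2 + t + j) := by
      rw [Real.rpow_neg hH0.le, Real.rpow_natCast, one_div, inv_pow]
    _ = ((1 / (H : ℝ)) ^ 2 * (1 / (H : ℝ)) ^ j) * (1 / (H : ℝ)) ^ t := by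
      rw [pow_add, pow_add]
      ring
    _ ≤ _ := by
      have h6 : 1 / (H : ℝ) ≤ 1 / 2 := one_div_le_one_div_of_le (by norm_num) hH2
      have h7 : 0 ≤ 1 / (H : ℝ) := by positivity
      gcongr

/-- the set of bad points in a ball -/
def BadB (ι : (Fin r → ℝ) →ₗ[ℝ] ℂ) (n m d R : ℕ) : Set (Fin n → Fin r → ℝ) :=
  {x | ‖x‖ ≤ R ∧ ∀ C : ℕ, ∃ H : ℕ, 2 ≤ H ∧ Fail m d H C (fun j => ι (x j))}

theorem meas_zero (ι : (Fin r → ℝ) →ₗ[ℝ] ℂ) (hι1 : ∀ v, ‖v‖ ≤ ‖ι v‖)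
    (hι2 : ∀ v, ‖ι v‖ ≤ 2 * ‖v‖) (n m d R : ℕ) (s : ℝ) (hs : ((r * ((m - 1) / 2) : ℕ) : ℝ) < s) :
    (Measure.hausdorffMeasure s : Measure (Fin n → Fin r → ℝ)) (BadB ι n m d R) = 0 := by
  classical
  obtain ⟨D, hD⟩ := struct n m d (2 * R)
  obtain ⟨c, hc⟩ := cover_scale ι hι1 hι2 n D R m
  set w' : ℕ := r * ((m - 1) / 2) with hw'
  have hs0 : 0 ≤ s := le_trans (Nat.cast_nonneg _) hs.le
  obtain ⟨q, hq⟩ : ∃ q : ℕ, ((r * n : ℕ) : ℝ) + s + 1 ≤ q * (s - w') := by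
    obtain ⟨q, hq⟩ := exists_nat_ge ((((r * n : ℕ) : ℝ) + s + 1) / (s - w'))
    refine ⟨q, ?_⟩
    rwa [div_le_iff₀ (by linarith)] at hq
  obtain ⟨q, hq, hq2⟩ : ∃ q : ℕ, ((r * n : ℕ) : ℝ) + s + 1 ≤ q * (s - w') ∧ 2 ≤ q := by
    refine ⟨max q 2, ?_, le_max_right _ _⟩
    refine hq.trans (mul_le_mul_of_nonneg_right ?_ (by linarith))
    exact_mod_cast le_max_left _ _
  obtain ⟨c₆, hc₆⟩ := exists_nat_ge ((c : ℝ) + c * s)
  let C0 : ℕ → ℕ := fun t => c₆ + 2 + t + c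
  choose κ hκ T hT1 hT2 hT3 using fun (t : ℕ) (p : ℕ × ℕ) =>
    hc (p.1 + 2) (by omega) q (C0 t + p.2)
  have hcount : ∀ t, Countable (Σ p : ℕ × ℕ, κ t p) := fun t => inferInstance
  have hdiam : ∀ (t : ℕ) (p : ℕ × ℕ) (k : κ t p), Metric.ediam (T t p k) ≤
      ENNReal.ofReal (((p.1 + 2 : ℕ) : ℝ) ^ (c + (C0 t + p.2)) /
        ((p.1 + 2 : ℕ) : ℝ) ^ (q * (C0 t + p.2))) := by
    intro t p k
    apply Metric.ediam_le
    intro x hx y hy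
    have h1 := hT3 t p k x hx y hy
    have h2 : (0 : ℝ) < ((p.1 + 2 : ℕ) : ℝ) ^ (q * (C0 t + p.2)) := by positivity
    rw [edist_dist, dist_eq_norm]
    apply ENNReal.ofReal_le_ofReal
    rwa [le_div_iff₀ h2]
  have hmain := Measure.hausdorffMeasure_le_liminf_tsum (β := ℕ) (ι := fun t => Σ p : ℕ × ℕ, κ t p)
    s (BadB ι n m d R) (l := atTop) (fun t => ENNReal.ofReal ((1 / 2) ^ t)) (by
      have h1 : Tendsto (fun t : ℕ => ((1 / 2 : ℝ)) ^ t) atTop (𝓝 0) :=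
        tendsto_pow_atTop_nhds_zero_of_lt_one (by norm_num) (by norm_num)
      have := ENNReal.tendsto_ofReal h1
      rwa [ENNReal.ofReal_zero] at this)
    (fun t p => T t p.1 p.2) (Eventually.of_forall (fun t p => by
      refine (hdiam t p.1 p.2).trans (ENNReal.ofReal_le_ofReal ?_)
      set Hr : ℝ := ((p.1.1 + 2 : ℕ) : ℝ) with hHr
      have hH2 : (2 : ℝ) ≤ Hr := by
        rw [hHr]
        exact_mod_cast (by omega : 2 ≤ p.1.1 + 2)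
      have hH1 : (1 : ℝ) ≤ Hr := by linarith
      rw [div_le_iff₀ (by positivity)]
      have h1 : Hr ^ (c + (C0 t + p.1.2)) * Hr ^ t ≤ Hr ^ (q * (C0 t + p.1.2)) := by
        rw [← pow_add]
        apply pow_le_pow_right₀ hH1
        have h2 : 2 * (C0 t + p.1.2) ≤ q * (C0 t + p.1.2) := Nat.mul_le_mul_right _ hq2
        have h3 : c + t ≤ C0 t := by simp only [C0]; omega
        omega
      have h4 : (1 : ℝ) ≤ (1 / 2) ^ t * Hr ^ t := by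
        rw [← mul_pow]
        apply one_le_pow₀
        linarith
      calc Hr ^ (c + (C0 t + p.1.2)) ≤ Hr ^ (c + (C0 t + p.1.2)) * ((1 / 2) ^ t * Hr ^ t) :=
            le_mul_of_one_le_right (by positivity) h4
        _ = (1 / 2) ^ t * (Hr ^ (c + (C0 t + p.1.2)) * Hr ^ t) := by ring
        _ ≤ _ := mul_le_mul_of_nonneg_left h1 (by positivity)))
    (Eventually.of_forall (fun t => by
      rintro x ⟨hx, hxC⟩
      obtain ⟨C, hC⟩ := hD q (C0 t)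
      obtain ⟨H, hH, hF⟩ := hxC C
      obtain ⟨J, hJ, e, he, hS⟩ := hC H hH (fun j => ι (x j)) (fun j => by
        calc ‖ι (x j)‖ ≤ 2 * ‖x j‖ := hι2 _
          _ ≤ 2 * R := by
            have := (norm_le_pi_norm x j).trans hx
            linarith) hF
      obtain ⟨i, rfl⟩ := Nat.exists_eq_add_of_le' hH
      obtain ⟨j, rfl⟩ := Nat.exists_eq_add_of_le he
      have h1 := hT2 t (i, j) (show x ∈ _ from ⟨hx, J, hJ, hS⟩)
      obtain ⟨k, hk⟩ := Set.mem_iUnion.1 h1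
      exact Set.mem_iUnion.2 ⟨⟨(i, j), k⟩, hk⟩))
  let g : ℕ × ℕ → ℝ := fun p => (1 / ((p.1 + 2 : ℕ) : ℝ)) ^ 2 * (1 / 2) ^ p.2
  have hg : Summable g := by
    have h1 : Summable (fun i : ℕ => (1 / ((i + 2 : ℕ) : ℝ)) ^ 2) := by
      have h2 : Summable (fun i : ℕ => 1 / ((i : ℕ) : ℝ) ^ 2) :=
        Real.summable_one_div_nat_pow.2 (by norm_num)
      have h3 := (summable_nat_add_iff 2).2 h2
      refine h3.congr (fun i => ?_)
      rw [div_pow, one_pow]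
    exact h1.mul_of_nonneg (summable_geometric_two) (fun i => by positivity) (fun i => by positivity)
  have hbound : ∀ t : ℕ, ∑' p : (Σ p : ℕ × ℕ, κ t p), Metric.ediam (T t p.1 p.2) ^ s ≤
      (∑' p, ENNReal.ofReal (g p)) * ENNReal.ofReal ((1 / 2) ^ t) := by
    intro t
    rw [ENNReal.tsum_sigma', ← ENNReal.tsum_mul_right]
    refine ENNReal.tsum_le_tsum (fun p => ?_)
    rw [tsum_fintype]
    set Hn : ℕ := p.1 + 2 with hHn
    have hH2 : 2 ≤ Hn := by omega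
    set e : ℕ := C0 t + p.2 with he
    have h1 : ∀ k : κ t p, Metric.ediam (T t p k) ^ s ≤
        ENNReal.ofReal (((Hn : ℝ) ^ (c + e) / (Hn : ℝ) ^ (q * e)) ^ s) := by
      intro k
      rw [← ENNReal.ofReal_rpow_of_nonneg (by positivity) hs0]
      exact ENNReal.rpow_le_rpow (hdiam t p k) hs0
    calc ∑ k : κ t p, Metric.ediam (T t p k) ^ s
        ≤ ∑ _k : κ t p, ENNReal.ofReal (((Hn : ℝ) ^ (c + e) / (Hn : ℝ) ^ (q * e)) ^ s) :=
          Finset.sum_le_sum (fun k _ => h1 k)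
      _ = (Fintype.card (κ t p) : ℝ≥0∞) *
          ENNReal.ofReal (((Hn : ℝ) ^ (c + e) / (Hn : ℝ) ^ (q * e)) ^ s) := by
          rw [Finset.sum_const, Finset.card_univ, nsmul_eq_mul]
      _ ≤ ((Hn ^ (c + w' * (q * e) + r * n * e) : ℕ) : ℝ≥0∞) *
          ENNReal.ofReal (((Hn : ℝ) ^ (c + e) / (Hn : ℝ) ^ (q * e)) ^ s) := by
          gcongr
          exact hT1 t p
      _ = ENNReal.ofReal (((Hn ^ (c + w' * (q * e) + r * n * e) : ℕ) : ℝ) *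
          ((Hn : ℝ) ^ (c + e) / (Hn : ℝ) ^ (q * e)) ^ s) := by
          rw [ENNReal.ofReal_mul (Nat.cast_nonneg _), ENNReal.ofReal_natCast]
      _ ≤ ENNReal.ofReal (g p * (1 / 2) ^ t) := by
          apply ENNReal.ofReal_le_ofReal
          exact num hH2 hq hc₆ (by simp only [he, C0]; omega)
      _ = _ := ENNReal.ofReal_mul (by simp only [g]; positivity)
  have hlim : Tendsto (fun t : ℕ => (∑' p, ENNReal.ofReal (g p)) * ENNReal.ofReal ((1 / 2) ^ t))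
      atTop (𝓝 0) := by
    have h1 : Tendsto (fun t : ℕ => ((1 / 2 : ℝ)) ^ t) atTop (𝓝 0) :=
      tendsto_pow_atTop_nhds_zero_of_lt_one (by norm_num) (by norm_num)
    have h2 := ENNReal.tendsto_ofReal h1
    rw [ENNReal.ofReal_zero] at h2
    have h3 := ENNReal.Tendsto.const_mul (a := ∑' p, ENNReal.ofReal (g p)) h2
      (Or.inr hg.tsum_ofReal_ne_top)
    rwa [mul_zero] at h3
  have h4 := hmain.trans (liminf_le_liminf (Eventually.of_forall hbound))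
  rw [hlim.liminf_eq] at h4
  exact nonpos_iff_eq_zero.1 h4

theorem dimH_BadB (ι : (Fin r → ℝ) →ₗ[ℝ] ℂ) (hι1 : ∀ v, ‖v‖ ≤ ‖ι v‖)
    (hι2 : ∀ v, ‖ι v‖ ≤ 2 * ‖v‖) (n m d R : ℕ) :
    dimH (BadB ι n m d R) ≤ ((r * ((m - 1) / 2) : ℕ) : ℝ≥0∞) := by
  apply dimH_le
  intro d' hd'
  by_contra hcon
  rw [not_le] at hcon
  have h1 : ((r * ((m - 1) / 2) : ℕ) : ℝ) < (d' : ℝ) := by
    have h2 : (((r * ((m - 1) / 2) : ℕ) : ℝ≥0) : ℝ≥0∞) < (d' : ℝ≥0∞) := by exact_mod_cast hcon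
    exact_mod_cast ENNReal.coe_lt_coe.1 h2
  rw [meas_zero ι hι1 hι2 n m d R d' h1] at hd'
  exact ENNReal.zero_ne_top hd'

/-- **The upper bound.** -/
theorem dimH_Bad_le (ι : (Fin r → ℝ) →ₗ[ℝ] ℂ) (hι1 : ∀ v, ‖v‖ ≤ ‖ι v‖)
    (hι2 : ∀ v, ‖ι v‖ ≤ 2 * ‖v‖) (n m : ℕ) :
    dimH {x : Fin n → Fin r → ℝ | ∃ d : ℕ, ∀ C : ℕ, ∃ H : ℕ, 2 ≤ H ∧
      Fail m d H C (fun j => ι (x j))} ≤ ((r * ((m - 1) / 2) : ℕ) : ℝ≥0∞) := by
  have h1 : {x : Fin n → Fin r → ℝ | ∃ d : ℕ, ∀ C : ℕ, ∃ H : ℕ, 2 ≤ H ∧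
      Fail m d H C (fun j => ι (x j))} ⊆ ⋃ (d : ℕ) (R : ℕ), BadB ι n m d R := by
    rintro x ⟨d, hd⟩
    obtain ⟨R, hR⟩ := exists_nat_ge ‖x‖
    exact Set.mem_iUnion₂.2 ⟨d, R, hR, hd⟩
  refine (dimH_mono h1).trans ?_
  rw [dimH_iUnion]
  refine iSup_le (fun d => ?_)
  rw [dimH_iUnion]
  exact iSup_le (fun R => dimH_BadB ι hι1 hι2 n m d R)

end Pool.Agent.Helper78.QS.Dim
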